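import Pool.Agent.Helper116_EM.Names

/-!
# Measures for polynomials in `e` and the values of the exponential integrals (helper116)
-/

set_option autoImplicit false
set_option linter.unusedSectionVars false

open Finset

namespace Pool.Agent.Helper116_EM

open Pool.Agent.R352.T (EA ev_ESa real_tw common_den tw fT ESa)
open Pool.Agent.R352.E (ev_wS Sg wS)
open Pool.Agent.Y113 (ev)

/-- the ring of the values of polynomials with integer coefficients -/
noncomputable abbrev Rg {ι : Type*} (β : ι → ℝ) : Subalgebra ℤ ℝ := (MvPolynomial.aeval β : MvPolynomial ι ℤ →ₐ[ℤ] ℝ).range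

lemma mem_Rg {ι : Type*} (β : ι → ℝ) (i : ι) : β i ∈ Rg β := ⟨MvPolynomial.X i, by simp⟩

theorem MeasI.subst' {ι κ : Type*} [Fintype κ] {β : ι → ℝ} (hβ : MeasI β) (θ : κ → ℝ)
    (hθ : AlgebraicIndependent ℚ θ) (g : ℝ) (hg0 : g ≠ 0) (hg : g ∈ Rg β) (h : ∀ j, θ j * g ∈ Rg β) : MeasI θ := by
  obtain ⟨G, hG⟩ := hg
  choose F hF using h
  have hG' : MvPolynomial.aeval β G = g := hG
  refine hβ.subst θ (fun P hP => aeval_int_ne hθ P hP) G F (by rw [hG']; exact hg0) fun j => ?_
  rw [hG']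
  exact (hF j).symm

/-- the ring generated by the values at finitely many points -/
theorem tower_points (J : ℕ) (S : Finset (ℚ × ℚ)) (hS : ∀ p ∈ S, 0 ≤ p.1 ∧ p.1 < 1 ∧ 0 < p.2) :
    ∃ (ι : Type) (β : ι → ℝ) (g : ℝ), MeasI β ∧ g ≠ 0 ∧ g ∈ Rg β ∧ Real.exp 1 * g ∈ Rg β ∧
      (∀ p ∈ S, Real.exp (-(p.2 : ℝ)) ∈ Rg β) ∧ (∀ p ∈ S, ∀ l, 1 ≤ l → l ≤ J → EA p.1 l p.2 ∈ Rg β) := by
  classical
  let e := Fintype.equivFin S
  obtain ⟨k, hk⟩ : ∃ k, k = Fintype.card S := ⟨_, rfl⟩
  let e : S ≃ Fin k := (Fintype.equivFin S).trans (finCongr hk.symm)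
  let a : Fin k → ℚ := fun i => (e.symm i : ℚ × ℚ).1
  let x : Fin k → ℚ := fun i => (e.symm i : ℚ × ℚ).2
  have ha0 : ∀ i, 0 ≤ a i := fun i => (hS _ (e.symm i).2).1
  have ha1 : ∀ i, a i < 1 := fun i => (hS _ (e.symm i).2).2.1
  have hpos : ∀ i, 0 < x i := fun i => (hS _ (e.symm i).2).2.2
  have hinj : ∀ i i', a i = a i' → x i = x i' → i = i' := by
    intro i i' h1 h2
    exact e.symm.injective (Subtype.ext (Prod.ext h1 h2))
  set q : ℕ := (∏ i, (x i).den) * ∏ i, (a i).den with hqd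
  have hq : 1 ≤ q := Nat.one_le_iff_ne_zero.2 (Nat.mul_ne_zero
    (Finset.prod_ne_zero_iff.2 fun i _ => (x i).den_ne_zero) (Finset.prod_ne_zero_iff.2 fun i _ => (a i).den_ne_zero))
  have hq' : (q : ℝ) ≠ 0 := by positivity
  have hqp : (0 : ℝ) < q := by positivity
  have h1 := common_den x (fun i => (hpos i).le) q
    (fun i => (Finset.dvd_prod_of_mem (fun i => (x i).den) (Finset.mem_univ i)).trans (dvd_mul_right _ _)) hq
  have h2 := common_den a ha0 q
    (fun i => (Finset.dvd_prod_of_mem (fun i => (a i).den) (Finset.mem_univ i)).trans (dvd_mul_left _ _)) hq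
  choose mm hmm using h1
  choose cc hcc using h2
  have hinj' : ∀ i i', mm i = mm i' → cc i = cc i' → i = i' := by
    intro i j hij hij'
    apply hinj
    · have h1 := hcc i
      rw [hij', hcc j] at h1
      exact_mod_cast h1.symm
    · have h1 := hmm i
      rw [hij, hmm j] at h1
      exact_mod_cast h1.symm
  have hpos' : ∀ i, 1 ≤ mm i := by
    intro i
    by_contra h
    have h0 : mm i = 0 := by omega
    have h1 := hmm i
    rw [h0, Nat.cast_zero, zero_div] at h1
    have : (0 : ℝ) < x i := by exact_mod_cast hpos i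
    linarith
  have hcq : ∀ i, cc i < q := by
    intro i
    have h1 := hcc i
    have h3 : ((a i : ℚ) : ℝ) < 1 := by exact_mod_cast ha1 i
    rw [← h1, div_lt_one hqp] at h3
    exact_mod_cast h3
  have R := real_tw J k mm cc hinj' hpos' hq hcq
  have hM := measI_tower R
  set β : {i : Sg J k // i ≠ (tw J k mm cc hinj' hpos').z} → ℝ := fun i => ev 1 (fT J k mm cc q i.1) with hβ
  have hw : Real.exp (-1 / q) ∈ Rg β := by
    have hne : (toLex (Sum.inr 0) : Sg J k) ≠ (tw J k mm cc hinj' hpos').z := fun h => by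
      have := Sum.inr_injective (toLex.injective h)
      exact absurd this (by decide)
    have h3 := mem_Rg β ⟨toLex (Sum.inr 0), hne⟩
    have h4 : β ⟨toLex (Sum.inr 0), hne⟩ = Real.exp (-1 / q) := by
      show ev 1 (wS q) = _
      rw [ev_wS]
    rwa [h4] at h3
  have hE : ∀ (i : Fin k) (l : ℕ), 1 ≤ l → l ≤ J → EA (a i) l (x i) ∈ Rg β := by
    intro i l hl hlJ
    have hlt : J - l < J := by omega
    have hne : (toLex (Sum.inl (toLex ((⟨J - l, hlt⟩ : Fin J), i))) : Sg J k) ≠ (tw J k mm cc hinj' hpos').z :=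
      fun h => Sum.inl_ne_inr (toLex.injective h)
    have h3 := mem_Rg β ⟨toLex (Sum.inl (toLex ((⟨J - l, hlt⟩ : Fin J), i))), hne⟩
    have h4 : β ⟨toLex (Sum.inl (toLex ((⟨J - l, hlt⟩ : Fin J), i))), hne⟩ = EA (a i) l (x i) := by
      show ev 1 (ESa ((cc i : ℚ) / q) (J - (J - l)) ((mm i : ℚ) / q)) = _
      rw [ev_ESa _ _ _ _ hq, hcc, hmm]
      congr 1
      omega
    rwa [h4] at h3
  refine ⟨_, β, Real.exp (-1), hM, (Real.exp_pos _).ne', ?_, ?_, ?_, ?_⟩
  · have h3 := (Rg β).pow_mem hw q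
    have h4 : Real.exp (-1 / q) ^ q = Real.exp (-1) := by
      rw [← Real.exp_nat_mul]
      congr 1
      field_simp
    rwa [h4] at h3
  · rw [← Real.exp_add, add_neg_cancel, Real.exp_zero]
    exact (Rg β).one_mem
  · intro p hp
    have h3 := (Rg β).pow_mem hw (mm (e ⟨p, hp⟩))
    have h4 : Real.exp (-1 / q) ^ (mm (e ⟨p, hp⟩)) = Real.exp (-(p.2 : ℝ)) := by
      rw [← Real.exp_nat_mul]
      congr 1
      have h5 := hmm (e ⟨p, hp⟩)
      have h6 : x (e ⟨p, hp⟩) = p.2 := by
        show ((e.symm (e ⟨p, hp⟩) : S) : ℚ × ℚ).2 = p.2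
        rw [Equiv.symm_apply_apply]
      rw [h6] at h5
      rw [← h5]
      field_simp
    rwa [h4] at h3
  · intro p hp l hl hlJ
    have h3 := hE (e ⟨p, hp⟩) l hl hlJ
    have h5 : a (e ⟨p, hp⟩) = p.1 := by
      show ((e.symm (e ⟨p, hp⟩) : S) : ℚ × ℚ).1 = p.1
      rw [Equiv.symm_apply_apply]
    have h6 : x (e ⟨p, hp⟩) = p.2 := by
      show ((e.symm (e ⟨p, hp⟩) : S) : ℚ × ℚ).2 = p.2
      rw [Equiv.symm_apply_apply]
    rwa [h5, h6] at h3

/-- **measures for algebraically independent numbers in the ring of the values** -/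
theorem meas_gen {κ : Type*} [Fintype κ] (J : ℕ) (S : Finset (ℚ × ℚ)) (hS : ∀ p ∈ S, 0 ≤ p.1 ∧ p.1 < 1 ∧ 0 < p.2)
    (θ : κ → ℝ) (hAI : AlgebraicIndependent ℚ θ)
    (h : ∀ (B : Subalgebra ℤ ℝ) (g : ℝ), g ∈ B → Real.exp 1 * g ∈ B → (∀ p ∈ S, Real.exp (-(p.2 : ℝ)) ∈ B) →
      (∀ p ∈ S, ∀ l, 1 ≤ l → l ≤ J → EA p.1 l p.2 ∈ B) → ∀ j, θ j * g ∈ B) : MeasI θ := by
  obtain ⟨ι, β, g, hβ, hg0, hg, heg, hexp, hEA⟩ := tower_points J S hS
  exact hβ.subst' θ hAI g hg0 hg (h (Rg β) g hg heg hexp hEA)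

/-- differences of the offsets of names -/
theorem names_indep (η : ℝ) {A : Type*} (o : A) (c : A → ℝ) (hco : c o = 0)
    (hAI : AlgebraicIndependent ℚ (fun z : Option {b : A // b ≠ o} => z.elim η (fun b => c b))) {m : ℕ}
    (a : Fin (m + 1) → A) (ha : Function.Injective a) :
    AlgebraicIndependent ℚ (Fin.cons η (fun j : Fin m => c (a 0) - c (a j.succ)) : Fin (m + 1) → ℝ) := by
  classical
  set F : Finset A := insert o (Finset.univ.image a) with hF
  have hoF : o ∈ F := Finset.mem_insert_self _ _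
  have haF : ∀ j, a j ∈ F := fun j => Finset.mem_insert_of_mem (Finset.mem_image_of_mem _ (Finset.mem_univ _))
  let y : Option (F.erase (a 0)) → ℝ := fun z => z.elim η (fun b => c (a 0) - c b)
  let x : Option (F.erase o) → ℝ := fun z => z.elim η (fun b => c b)
  have hx : AlgebraicIndependent ℚ x := by
    let f : Option (F.erase o) → Option {b : A // b ≠ o} := Option.map fun b => ⟨b.1, (Finset.mem_erase.1 b.2).1⟩
    have hf : Function.Injective f := by
      apply Option.map_injective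
      intro b b' hbb
      exact Subtype.ext (congrArg (fun z : {b : A // b ≠ o} => (z : A)) hbb)
    have h1 := hAI.comp f hf
    convert h1 using 1
    funext z
    cases z <;> rfl
  have hy : AlgebraicIndependent ℚ y := by
    refine Pool.Agent.R352.E.indep_of_span hx (fun z => ?_) ?_
    · set T := Set.range y with hT
      have hη : η ∈ Pool.Agent.R352.E.clF T := Pool.Agent.R352.E.subset_clF T ⟨none, rfl⟩
      have hdiff : ∀ b ∈ F, c (a 0) - c b ∈ Pool.Agent.R352.E.clF T := by
        intro b hb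
        by_cases hba : b = a 0
        · rw [hba, sub_self]; exact (Pool.Agent.R352.E.clF T).zero_mem
        · exact Pool.Agent.R352.E.subset_clF T ⟨some ⟨b, Finset.mem_erase.2 ⟨hba, hb⟩⟩, rfl⟩
      have h0 : c (a 0) ∈ Pool.Agent.R352.E.clF T := by
        have := hdiff o hoF
        rwa [hco, sub_zero] at this
      cases z with
      | none => exact hη
      | some b =>
        have h1 := (Pool.Agent.R352.E.clF T).sub_mem h0 (hdiff b.1 (Finset.mem_erase.1 b.2).2)
        rw [sub_sub_cancel] at h1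
        exact h1
    · rw [Fintype.card_option, Fintype.card_option, Fintype.card_coe, Fintype.card_coe,
        Finset.card_erase_of_mem (haF 0), Finset.card_erase_of_mem hoF]
  let f : Fin (m + 1) → Option (F.erase (a 0)) := Fin.cons none (fun j => some ⟨a j.succ, Finset.mem_erase.2
    ⟨fun h => Fin.succ_ne_zero j (ha h), haF _⟩⟩)
  have hf : Function.Injective f := by
    intro i i' h
    revert h
    refine Fin.cases ?_ (fun j => ?_) i
    · refine Fin.cases ?_ (fun j' => ?_) i'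
      · intro _; rfl
      · intro h
        exact absurd h (by simp [f])
    · refine Fin.cases ?_ (fun j' => ?_) i'
      · intro h
        exact absurd h (by simp [f])
      · intro h
        simp only [f, Fin.cons_succ, Option.some.injEq, Subtype.mk.injEq] at h
        exact ha h
  have h1 := hy.comp f hf
  convert h1 using 1
  funext i
  refine Fin.cases ?_ (fun j => ?_) i
  · rfl
  · rfl

end Pool.Agent.Helper116_EM
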