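import Mathlib

/-!
# Algebraically independent complex numbers, after a shift by an algebraic number (helper116)

The first part is `Pool.Agent.R352.E.Mat` with complex numbers in the place of real numbers.
-/

set_option autoImplicit false

open Set

namespace Pool.Agent.Helper116_EM

/-- the matroid of algebraic independence over the rationals -/
noncomputable abbrev MtC : Matroid ℂ := AlgebraicIndependent.matroid ℚ ℂ

lemma mem_clC_iff {S : Set ℂ} {x : ℂ} : x ∈ MtC.closure S ↔ IsAlgebraic (Algebra.adjoin ℚ S) x := by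
  rw [AlgebraicIndependent.matroid_closure_eq]
  exact Iff.rfl

/-- the closure as a field -/
noncomputable def clC (S : Set ℂ) : Subfield ℂ where
  carrier := MtC.closure S
  mul_mem' := fun ha hb => mem_clC_iff.2 ((mem_clC_iff.1 ha).mul (mem_clC_iff.1 hb))
  one_mem' := mem_clC_iff.2 isAlgebraic_one
  add_mem' := fun ha hb => mem_clC_iff.2 ((mem_clC_iff.1 ha).add (mem_clC_iff.1 hb))
  zero_mem' := mem_clC_iff.2 isAlgebraic_zero
  neg_mem' := fun ha => mem_clC_iff.2 (mem_clC_iff.1 ha).neg
  inv_mem' := fun _ ha => mem_clC_iff.2 (mem_clC_iff.1 ha).inv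

lemma subset_clC (S : Set ℂ) : S ⊆ clC S := Matroid.subset_closure MtC S (subset_univ _)

lemma clC_mono {S T : Set ℂ} (h : S ⊆ T) : clC S ≤ clC T := Matroid.closure_subset_closure MtC h

lemma cardC_le {ι : Type*} [Fintype ι] {x : ι → ℂ} (hx : AlgebraicIndependent ℚ x) {T : Set ℂ} (h : ∀ i, x i ∈ clC T) :
    (Fintype.card ι : ℕ∞) ≤ MtC.eRk T := by
  have h1 : MtC.Indep (range x) := hx.to_subtype_range
  have h2 : range x ⊆ MtC.closure T := by
    rintro _ ⟨i, rfl⟩
    exact h i
  calc (Fintype.card ι : ℕ∞) = (range x).encard := by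
        rw [← image_univ, hx.injective.injOn.encard_image, encard_univ, ENat.card_eq_coe_fintype_card]
    _ ≤ MtC.eRk (MtC.closure T) := h1.encard_le_eRk_of_subset h2
    _ = MtC.eRk T := Matroid.eRk_closure_eq MtC T

/-- as many elements spanning independent elements are independent -/
lemma indepC_of_span {ι κ : Type*} [Fintype ι] [Fintype κ] {x : ι → ℂ} (hx : AlgebraicIndependent ℚ x) {y : κ → ℂ}
    (h : ∀ i, x i ∈ clC (range y)) (hc : Fintype.card κ ≤ Fintype.card ι) : AlgebraicIndependent ℚ y := by
  have h1 := cardC_le hx h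
  have h2 : (range y).encard ≤ Fintype.card κ := by
    rw [← image_univ, ← ENat.card_eq_coe_fintype_card, ← encard_univ]
    exact encard_image_le _ _
  have h3 : (Fintype.card κ : ℕ∞) ≤ (range y).encard :=
    (by exact_mod_cast hc : (Fintype.card κ : ℕ∞) ≤ Fintype.card ι).trans (h1.trans (Matroid.eRk_le_encard _ _))
  have hfin : (range y).Finite := finite_range y
  have h4 : MtC.Indep (range y) := by
    refine (MtC.isRkFinite_of_finite hfin).indep_of_encard_le_eRk ?_
    exact h2.trans ((by exact_mod_cast hc : (Fintype.card κ : ℕ∞) ≤ Fintype.card ι).trans h1)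
  have hinj : Function.Injective y := by
    rw [← injOn_univ]
    refine Finite.injOn_of_encard_image_eq finite_univ ?_
    rw [image_univ]
    refine le_antisymm (h2.trans ?_) ?_
    · rw [encard_univ, ENat.card_eq_coe_fintype_card]
    · rw [encard_univ, ENat.card_eq_coe_fintype_card]; exact h3
  exact (algebraicIndependent_subtype_range hinj).1 h4

/-- real numbers as complex numbers -/
lemma indepC_ofReal {ι : Type*} {x : ι → ℝ} (hx : AlgebraicIndependent ℚ x) :
    AlgebraicIndependent ℚ (fun i => (x i : ℂ)) := by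
  have h1 : Function.Injective (Complex.ofRealAm.restrictScalars ℚ) := Complex.ofReal_injective
  exact ((Complex.ofRealAm.restrictScalars ℚ).algebraicIndependent_iff h1).2 hx

/-- polynomials with integer coefficients -/
lemma aeval_int_ne {ι A : Type*} [CommRing A] [Algebra ℚ A] {x : ι → A} (hx : AlgebraicIndependent ℚ x)
    (P : MvPolynomial ι ℤ) (hP : P ≠ 0) : MvPolynomial.aeval x P ≠ 0 := by
  intro h0
  have hinj : Function.Injective (MvPolynomial.map (σ := ι) (Int.castRingHom ℚ)) :=
    MvPolynomial.map_injective _ Int.cast_injective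
  apply hP
  apply hinj
  rw [map_zero]
  apply hx
  rw [map_zero, ← h0, MvPolynomial.aeval_def, MvPolynomial.aeval_def, MvPolynomial.eval₂_map]
  congr 1
  exact RingHom.ext_int _ _

/-- shift by a number which is algebraic over the field of `η` -/
lemma shift_indep {ρ κ : Type*} [Fintype ρ] [Fintype κ] (η : ρ → ℝ) (θ : κ → ℝ)
    (h : AlgebraicIndependent ℚ (Sum.elim η θ)) (α : ℂ) (hα : α ∈ clC (range fun r => (η r : ℂ))) :
    AlgebraicIndependent ℚ (Sum.elim (fun r => (η r : ℂ)) (fun j => α + (θ j : ℂ))) := by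
  refine indepC_of_span (indepC_ofReal h) (fun i => ?_) le_rfl
  set T : Set ℂ := range (Sum.elim (fun r => (η r : ℂ)) (fun j => α + (θ j : ℂ))) with hT
  have hη : ∀ r, (η r : ℂ) ∈ clC T := fun r => subset_clC T ⟨Sum.inl r, rfl⟩
  have hα' : α ∈ clC T := by
    refine clC_mono ?_ hα
    rintro _ ⟨r, rfl⟩
    exact ⟨Sum.inl r, rfl⟩
  rcases i with r | j
  · exact hη r
  · have h1 : α + (θ j : ℂ) ∈ clC T := subset_clC T ⟨Sum.inr j, rfl⟩
    have h2 := (clC T).sub_mem h1 hα'
    rw [add_sub_cancel_left] at h2
    exact h2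

end Pool.Agent.Helper116_EM
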