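import Pool.Agent.Helper116_EM.MeasI
import Pool.Agent.R356.Elim

/-!
# Elimination of one number (helper116)
-/

set_option autoImplicit false
set_option linter.unusedSectionVars false

open Finset

namespace Pool.Agent.Helper116_EM

open Pool.Agent.R356 (IsLen det_filt sylv_entry)
open Pool.Agent.TH647.NR (norm_resultant_le)

/-- the evaluation of the coefficients, with complex values -/
noncomputable def evC {ι : Type*} (β : ι → ℝ) : MvPolynomial ι ℤ →+* ℂ :=
  Complex.ofRealHom.comp (MvPolynomial.aeval β : MvPolynomial ι ℤ →ₐ[ℤ] ℝ).toRingHom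

lemma evC_apply {ι : Type*} (β : ι → ℝ) (a : MvPolynomial ι ℤ) : evC β a = ((MvPolynomial.aeval β a : ℝ) : ℂ) := rfl

lemma norm_evC {ι : Type*} (β : ι → ℝ) (a : MvPolynomial ι ℤ) : ‖evC β a‖ = |MvPolynomial.aeval β a| := by
  rw [evC_apply, Complex.norm_real, Real.norm_eq_abs]

lemma evC_injective {ι : Type*} {β : ι → ℝ} (hβ : MeasI β) : Function.Injective (evC β) := by
  rw [injective_iff_map_eq_zero]
  intro a ha
  by_contra h0
  have h1 := hβ.ne_zero h0
  rw [evC_apply] at ha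
  exact h1 (by exact_mod_cast ha)

lemma isLen_abs : IsLen (fun x : ℝ => |x|) where
  nonneg := abs_nonneg
  zero := abs_zero
  one := by simp
  neg := abs_neg
  add := abs_add_le
  mul a b := (abs_mul a b).le

lemma abs_aeval_le {ι : Type*} [Fintype ι] (β : ι → ℝ) (D : ℕ) (a : MvPolynomial ι ℤ) (ha : a.totalDegree ≤ D) (H : ℝ)
    (hH : 0 ≤ H) (haH : ml a ≤ H) :
    |MvPolynomial.aeval β a| ≤ (((D : ℝ) + 1) ^ (Fintype.card ι) * (1 + ∑ i, |β i|) ^ D) * H := by
  have hs : 0 ≤ ∑ i, |β i| := Finset.sum_nonneg fun _ _ => abs_nonneg _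
  have h1 := subst_len isLen_abs (fun z => le_rfl) β (1 + ∑ i, |β i|) (by linarith) (fun i => by
    have := Finset.single_le_sum (f := fun i => |β i|) (fun _ _ => abs_nonneg _) (Finset.mem_univ i)
    have h2 : |β i| ≤ ∑ i, |β i| := this
    show |β i| ≤ _
    linarith) D a ha H hH (fun s => (coeff_le_ml a s).trans haH)
  refine h1.trans (le_of_eq ?_)
  ring

theorem joint0 {ι : Type*} [Fintype ι] {β : ι → ℝ} (hβ : MeasI β) (y : ℝ) (D : ℕ) :
    ∃ (κ : ℕ) (c : ℝ), 0 < c ∧ ∀ p q : Polynomial (MvPolynomial ι ℤ), p ≠ 0 → p ∈ pdF ι D → q ∈ pdF ι D →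
      ∀ H : ℝ, 1 ≤ H → (∀ i, ml (p.coeff i) ≤ H) → (∀ i, ml (q.coeff i) ≤ H) →
      (∀ α : ℂ, (p.map (evC β)).eval α = 0 → (q.map (evC β)).eval α ≠ 0) →
      c ≤ H ^ κ * max ‖(p.map (evC β)).eval (y : ℂ)‖ ‖(q.map (evC β)).eval (y : ℂ)‖ := by
  classical
  obtain ⟨k1, c1, hc1, hm1⟩ := hβ D
  obtain ⟨k2, c2, hc2, hm2⟩ := hβ ((2 * D) * D)
  obtain ⟨T, hT⟩ : ∃ T : ℝ, T = 1 + |y| := ⟨_, rfl⟩
  have hT1 : 1 ≤ T := by rw [hT]; linarith [abs_nonneg y]
  obtain ⟨K, hK⟩ : ∃ K : ℝ, K = ((D : ℝ) + 1) ^ (Fintype.card ι) * (1 + ∑ i, |β i|) ^ D := ⟨_, rfl⟩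
  have hs : 0 ≤ ∑ i, |β i| := Finset.sum_nonneg fun _ _ => abs_nonneg _
  have hD1 : (1 : ℝ) ≤ (D : ℝ) + 1 := by linarith [show (0 : ℝ) ≤ D by positivity]
  have hK1 : 1 ≤ K := by
    rw [hK]
    exact one_le_mul_of_one_le_of_one_le (one_le_pow₀ hD1) (one_le_pow₀ (by linarith))
  obtain ⟨N, hN⟩ : ∃ N : ℕ, N = 2 * D := ⟨_, rfl⟩
  obtain ⟨Z, hZ⟩ : ∃ Z : ℝ, Z = (N.factorial : ℝ) ^ k2 * ((N + 1) * T ^ N * (N.factorial * K ^ N)) := ⟨_, rfl⟩
  have hfac : (1 : ℝ) ≤ N.factorial := by exact_mod_cast Nat.factorial_pos _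
  have hZ0 : 0 < Z := by rw [hZ]; positivity
  refine ⟨k1 + (N * k2 + N), min c1 (c2 / Z), lt_min hc1 (by positivity), ?_⟩
  intro p q hp hpD hqD H hH hpH hqH hcop
  have hH0 : 0 < H := by linarith
  obtain ⟨ε, hε⟩ : ∃ ε : ℝ, ε = max ‖(p.map (evC β)).eval (y : ℂ)‖ ‖(q.map (evC β)).eval (y : ℂ)‖ := ⟨_, rfl⟩
  rw [← hε]
  have hε1 : ‖(p.map (evC β)).eval (y : ℂ)‖ ≤ ε := by rw [hε]; exact le_max_left _ _
  have hε2 : ‖(q.map (evC β)).eval (y : ℂ)‖ ≤ ε := by rw [hε]; exact le_max_right _ _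
  have hε0 : 0 ≤ ε := (norm_nonneg _).trans hε1
  have hinj := evC_injective hβ
  by_cases hm : p.natDegree = 0
  · -- a constant
    have h1 : p = Polynomial.C (p.coeff 0) := Polynomial.eq_C_of_natDegree_eq_zero hm
    have h2 : p.coeff 0 ≠ 0 := fun h => hp (by rw [h1, h, Polynomial.C_0])
    have h3 := hm1 (p.coeff 0) h2 (hpD.2 0) H hH (fun s => (coeff_le_ml _ s).trans (hpH 0))
    have h4 : ‖(p.map (evC β)).eval (y : ℂ)‖ = |MvPolynomial.aeval β (p.coeff 0)| := by
      rw [h1, Polynomial.map_C, Polynomial.eval_C, Polynomial.coeff_C_zero, norm_evC]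
    rw [← h4] at h3
    calc min c1 (c2 / Z) ≤ c1 := min_le_left _ _
      _ ≤ H ^ k1 * ‖(p.map (evC β)).eval (y : ℂ)‖ := h3
      _ ≤ H ^ (k1 + (N * k2 + N)) * ε := by
        refine mul_le_mul (pow_le_pow_right₀ hH (by omega)) hε1 (norm_nonneg _) (by positivity)
  · obtain ⟨r, hr⟩ : ∃ r, r = p.natDegree + q.natDegree := ⟨_, rfl⟩
    have hr0 : 0 < p.natDegree + q.natDegree := by omega
    have hpd := hpD.1
    have hqd := hqD.1
    have hrN : r ≤ N := by omega
    obtain ⟨res, hres⟩ : ∃ res, res = Polynomial.resultant p q p.natDegree q.natDegree := ⟨_, rfl⟩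
    have hev : evC β res = Polynomial.resultant (p.map (evC β)) (q.map (evC β)) p.natDegree q.natDegree := by
      rw [hres, ← Polynomial.resultant_map_map]
    have hpm : p.map (evC β) ≠ 0 := (Polynomial.map_ne_zero_iff hinj).2 hp
    have hne : evC β res ≠ 0 := by
      rw [hev]
      intro h1
      have h3 : p.natDegree = (p.map (evC β)).natDegree := by
        rw [Polynomial.natDegree_map_eq_of_injective hinj]
      rw [h3, Polynomial.resultant_eq_prod_eval _ _ _ Polynomial.natDegree_map_le (IsAlgClosed.splits _)] at h1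
      rcases mul_eq_zero.1 h1 with h2 | h2
      · exact hpm (Polynomial.leadingCoeff_eq_zero.1 (eq_zero_of_pow_eq_zero h2))
      · rw [Multiset.prod_eq_zero_iff, Multiset.mem_map] at h2
        obtain ⟨α, hα, hα0⟩ := h2
        have h4 : (p.map (evC β)).eval α = 0 := by
          rw [Polynomial.mem_roots hpm, Polynomial.IsRoot.def] at hα
          exact hα
        exact hcop α h4 hα0
    have hres0 : res ≠ 0 := by
      intro h0
      rw [h0, map_zero] at hne
      exact hne rfl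
    have hresd : res.totalDegree ≤ (2 * D) * D := by
      have h1 : res ∈ tdF ι ((p.natDegree + q.natDegree) * D) := by
        rw [hres, Polynomial.resultant]
        refine det_filt (tdF ι) (tdF_one ι) (tdF_mul ι) _ D _ fun i j => ?_
        exact sylv_entry (fun a : MvPolynomial ι ℤ => a ∈ tdF ι D) (zero_mem _) _ _ _ _ hpD.2 hqD.2 i j
      exact tdF_mono ι _ _ (Nat.mul_le_mul_right _ (by omega)) h1
    have hresm : ml res ≤ N.factorial * H ^ N := by
      have h1 : ml res ≤ (p.natDegree + q.natDegree).factorial * H ^ (p.natDegree + q.natDegree) := by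
        rw [hres, Polynomial.resultant]
        refine isLen_ml.det _ _ _ fun i j => ?_
        exact sylv_entry (fun a : MvPolynomial ι ℤ => ml a ≤ H) (by rw [ml_zero]; linarith) _ _ _ _ hpH hqH i j
      refine h1.trans ?_
      rw [← hr]
      have hfr : ((r.factorial : ℕ) : ℝ) ≤ N.factorial := by exact_mod_cast Nat.factorial_le hrN
      exact mul_le_mul hfr (pow_le_pow_right₀ hH hrN) (by positivity) (by positivity)
    have hHN : (1 : ℝ) ≤ N.factorial * H ^ N := one_le_mul_of_one_le_of_one_le hfac (one_le_pow₀ hH)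
    have h5 := hm2 res hres0 hresd _ hHN (fun s => (coeff_le_ml _ s).trans hresm)
    rw [← norm_evC, hev] at h5
    have hKH : 1 ≤ K * H := one_le_mul_of_one_le_of_one_le hK1 hH
    have h6 := norm_resultant_le (p.map (evC β)) (q.map (evC β)) p.natDegree q.natDegree
      Polynomial.natDegree_map_le Polynomial.natDegree_map_le hr0 (K * H) T ε hKH
      (fun i => by
        rw [Polynomial.coeff_map, norm_evC, hK]
        exact abs_aeval_le β D _ (hpD.2 i) H hH0.le (hpH i))
      (fun i => by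
        rw [Polynomial.coeff_map, norm_evC, hK]
        exact abs_aeval_le β D _ (hqD.2 i) H hH0.le (hqH i)) (y : ℂ) hT1
      (by rw [Complex.norm_real, Real.norm_eq_abs, hT]; linarith) hε1 hε2
    have h7 : ‖Polynomial.resultant (p.map (evC β)) (q.map (evC β)) p.natDegree q.natDegree‖ ≤
        (N + 1) * (T ^ N * ε) * (N.factorial * (K * H) ^ N) := by
      refine h6.trans ?_
      have e1 : ((p.natDegree : ℝ) + q.natDegree) = r := by rw [hr]; push_cast; ring
      rw [e1, ← hr]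
      have hrR : (r : ℝ) ≤ N + 1 := by
        have : (r : ℝ) ≤ N := by exact_mod_cast hrN
        linarith
      have hfr : ((r.factorial : ℕ) : ℝ) ≤ N.factorial := by exact_mod_cast Nat.factorial_le hrN
      refine mul_le_mul (mul_le_mul hrR ?_ (by positivity) (by positivity)) ?_ (by positivity) (by positivity)
      · exact mul_le_mul_of_nonneg_right (pow_le_pow_right₀ hT1 hrN) hε0
      · exact mul_le_mul hfr (pow_le_pow_right₀ hKH hrN) (by positivity) (by positivity)
    have h8 : c2 ≤ Z * (H ^ (N * k2 + N) * ε) := by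
      calc c2 ≤ (N.factorial * H ^ N) ^ k2 *
            ‖Polynomial.resultant (p.map (evC β)) (q.map (evC β)) p.natDegree q.natDegree‖ := h5
        _ ≤ (N.factorial * H ^ N) ^ k2 * ((N + 1) * (T ^ N * ε) * (N.factorial * (K * H) ^ N)) :=
          mul_le_mul_of_nonneg_left h7 (by positivity)
        _ = Z * (H ^ (N * k2 + N) * ε) := by
          rw [hZ, mul_pow, mul_pow, pow_add, pow_mul]
          ring
    calc min c1 (c2 / Z) ≤ c2 / Z := min_le_right _ _
      _ ≤ H ^ (N * k2 + N) * ε := by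
        rw [div_le_iff₀ hZ0]
        linarith
      _ ≤ H ^ (k1 + (N * k2 + N)) * ε := by
        refine mul_le_mul_of_nonneg_right (pow_le_pow_right₀ hH (by omega)) hε0

end Pool.Agent.Helper116_EM
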