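import Pool.Agent.R356.Len

/-!
# Lengths and degrees of polynomials in several variables (helper116)
-/

set_option autoImplicit false

open Finset

namespace Pool.Agent.Helper116_EM

open Pool.Agent.R356 (IsLen len len_C le_len isLen_int)

/-- the length of a polynomial in several variables -/
noncomputable def ml {τ : Type*} (P : MvPolynomial τ ℤ) : ℝ :=
  ∑ s ∈ P.support, |((MvPolynomial.coeff s P : ℤ) : ℝ)|

section

variable {τ : Type*}

lemma ml_eq (P : MvPolynomial τ ℤ) (S : Finset (τ →₀ ℕ)) (h : P.support ⊆ S) :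
    ml P = ∑ s ∈ S, |((MvPolynomial.coeff s P : ℤ) : ℝ)| := by
  unfold ml
  refine Finset.sum_subset h fun s _ hs => ?_
  rw [MvPolynomial.notMem_support_iff.1 hs]; simp

lemma coeff_le_ml (P : MvPolynomial τ ℤ) (s : τ →₀ ℕ) : |((MvPolynomial.coeff s P : ℤ) : ℝ)| ≤ ml P := by
  classical
  rw [ml_eq P (insert s P.support) (Finset.subset_insert _ _)]
  exact Finset.single_le_sum (f := fun s => |((MvPolynomial.coeff s P : ℤ) : ℝ)|) (fun _ _ => abs_nonneg _)
    (Finset.mem_insert_self _ _)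

lemma ml_nonneg (P : MvPolynomial τ ℤ) : 0 ≤ ml P := Finset.sum_nonneg fun _ _ => abs_nonneg _

lemma ml_add (P Q : MvPolynomial τ ℤ) : ml (P + Q) ≤ ml P + ml Q := by
  classical
  set S := P.support ∪ Q.support ∪ (P + Q).support with hS
  rw [ml_eq P S (by intro x hx; simp [hS, hx]), ml_eq Q S (by
    intro x hx
    rw [hS, Finset.mem_union, Finset.mem_union]; exact Or.inl (Or.inr hx)),
    ml_eq (P + Q) S (by intro x hx; rw [hS, Finset.mem_union]; exact Or.inr hx), ← Finset.sum_add_distrib]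
  refine Finset.sum_le_sum fun s _ => ?_
  rw [MvPolynomial.coeff_add]
  push_cast
  exact abs_add_le _ _

lemma ml_zero : ml (0 : MvPolynomial τ ℤ) = 0 := by simp [ml]

lemma ml_sum {ι : Type*} (S : Finset ι) (a : ι → MvPolynomial τ ℤ) : ml (∑ i ∈ S, a i) ≤ ∑ i ∈ S, ml (a i) := by
  classical
  induction S using Finset.induction_on with
  | empty => simp [ml_zero]
  | insert i S hi ih =>
    rw [Finset.sum_insert hi, Finset.sum_insert hi]
    exact (ml_add _ _).trans (by linarith)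

lemma ml_monomial (s : τ →₀ ℕ) (a : ℤ) : ml (MvPolynomial.monomial s a) ≤ |(a : ℝ)| := by
  classical
  rw [ml_eq _ {s} MvPolynomial.support_monomial_subset, Finset.sum_singleton, MvPolynomial.coeff_monomial, if_pos rfl]

lemma ml_mul (P Q : MvPolynomial τ ℤ) : ml (P * Q) ≤ ml P * ml Q := by
  classical
  have h1 : P * Q = ∑ s ∈ P.support, ∑ r ∈ Q.support,
      MvPolynomial.monomial (s + r) (MvPolynomial.coeff s P * MvPolynomial.coeff r Q) := by
    conv_lhs => rw [MvPolynomial.as_sum P, MvPolynomial.as_sum Q]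
    rw [Finset.sum_mul_sum]
    refine Finset.sum_congr rfl fun s _ => Finset.sum_congr rfl fun r _ => ?_
    rw [MvPolynomial.monomial_mul]
  rw [h1]
  refine (ml_sum _ _).trans ?_
  rw [ml, ml, Finset.sum_mul_sum]
  refine Finset.sum_le_sum fun s _ => (ml_sum _ _).trans (Finset.sum_le_sum fun r _ => ?_)
  refine (ml_monomial _ _).trans (le_of_eq ?_)
  push_cast
  rw [abs_mul]

lemma isLen_ml : IsLen (ml : MvPolynomial τ ℤ → ℝ) where
  nonneg := ml_nonneg
  zero := ml_zero
  one := by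
    have := ml_monomial (0 : τ →₀ ℕ) 1
    simpa using this
  neg P := by
    unfold ml
    rw [MvPolynomial.support_neg]
    refine Finset.sum_congr rfl fun s _ => ?_
    rw [MvPolynomial.coeff_neg]
    push_cast
    rw [abs_neg]
  add := ml_add
  mul := ml_mul

lemma ml_int (z : ℤ) : ml ((z : ℤ) : MvPolynomial τ ℤ) ≤ |(z : ℝ)| := by
  have := ml_monomial (0 : τ →₀ ℕ) z
  have h2 : ((z : ℤ) : MvPolynomial τ ℤ) = MvPolynomial.monomial 0 z := by
    rw [← MvPolynomial.C_apply]; simp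
  rwa [h2]

lemma ml_X (i : τ) : ml (MvPolynomial.X i : MvPolynomial τ ℤ) ≤ 1 := by
  have := ml_monomial (Finsupp.single i 1) 1
  simpa [MvPolynomial.X] using this

end

section

variable {S : Type*} [CommRing S] {f : S → ℝ}

lemma len_pow (h : IsLen f) {a : S} {Λ : ℝ} (ha : f a ≤ Λ) (k : ℕ) : f (a ^ k) ≤ Λ ^ k := by
  induction k with
  | zero => simpa using h.one
  | succ k ih =>
    rw [pow_succ, pow_succ]
    exact (h.mul _ _).trans (mul_le_mul ih ha (h.nonneg _) (by
      exact pow_nonneg ((h.nonneg _).trans ha) _))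

lemma card_support_le {τ : Type*} [Fintype τ] (P : MvPolynomial τ ℤ) (D : ℕ) (hP : P.totalDegree ≤ D) :
    (P.support.card : ℝ) ≤ ((D : ℝ) + 1) ^ (Fintype.card τ) := by
  classical
  have h1 : P.support.card ≤ (Fintype.piFinset fun _ : τ => Finset.range (D + 1)).card := by
    refine Finset.card_le_card_of_injOn (fun s => (s : τ → ℕ)) (fun s hs => ?_) (fun s _ r _ h => DFunLike.coe_injective h)
    have hs' : s ∈ P.support := hs
    show (s : τ → ℕ) ∈ Fintype.piFinset fun _ : τ => Finset.range (D + 1)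
    rw [Fintype.mem_piFinset]
    intro i
    rw [Finset.mem_range]
    have h2 := MvPolynomial.le_totalDegree hs'
    rw [Finsupp.sum_fintype _ _ (fun _ => rfl)] at h2
    have h3 : s i ≤ ∑ i, s i := Finset.single_le_sum (f := fun i => s i) (fun _ _ => Nat.zero_le _) (Finset.mem_univ i)
    omega
  rw [Fintype.card_piFinset] at h1
  simp only [Finset.card_range, Finset.prod_const, Finset.card_univ] at h1
  exact_mod_cast h1

lemma subst_len (hf : IsLen f) (hint : ∀ z : ℤ, f (z : S) ≤ |(z : ℝ)|) {τ : Type*} [Fintype τ]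
    (g : τ → S) (Λ : ℝ) (hΛ : 1 ≤ Λ) (hg : ∀ i, f (g i) ≤ Λ) (D : ℕ) (P : MvPolynomial τ ℤ) (hP : P.totalDegree ≤ D)
    (H : ℝ) (hH : 0 ≤ H) (hPH : ∀ s, |((MvPolynomial.coeff s P : ℤ) : ℝ)| ≤ H) :
    f (MvPolynomial.aeval g P) ≤ ((D : ℝ) + 1) ^ (Fintype.card τ) * H * Λ ^ D := by
  classical
  rw [MvPolynomial.aeval_def, MvPolynomial.eval₂_eq]
  refine (hf.sum _ _).trans ?_
  have h1 : ∀ s ∈ P.support, f ((algebraMap ℤ S) (MvPolynomial.coeff s P) * ∏ i ∈ s.support, g i ^ s i) ≤ H * Λ ^ D := by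
    intro s hs
    refine (hf.mul _ _).trans ?_
    refine mul_le_mul ((hint _).trans (hPH s)) ?_ (hf.nonneg _) hH
    refine (hf.prod _ _).trans ?_
    calc ∏ i ∈ s.support, f (g i ^ s i) ≤ ∏ i ∈ s.support, Λ ^ s i :=
          Finset.prod_le_prod (fun i _ => hf.nonneg _) fun i _ => len_pow hf (hg i) _
      _ = Λ ^ ∑ i ∈ s.support, s i := by rw [Finset.prod_pow_eq_pow_sum]
      _ ≤ Λ ^ D := by
        apply pow_le_pow_right₀ hΛ
        exact (MvPolynomial.le_totalDegree hs).trans hP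
  refine (Finset.sum_le_sum h1).trans ?_
  rw [Finset.sum_const, nsmul_eq_mul]
  have h2 := card_support_le P D hP
  have h3 : 0 ≤ H * Λ ^ D := by positivity
  calc (P.support.card : ℝ) * (H * Λ ^ D) ≤ ((D : ℝ) + 1) ^ (Fintype.card τ) * (H * Λ ^ D) :=
        mul_le_mul_of_nonneg_right h2 h3
    _ = _ := by ring

/-- substitution and filtrations -/
lemma subst_filt (A : ℕ → AddSubgroup S) (h1 : (1 : S) ∈ A 0)
    (hm : ∀ m n a b, a ∈ A m → b ∈ A n → a * b ∈ A (m + n)) (hmono : ∀ m n, m ≤ n → A m ≤ A n) {τ : Type*}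
    (g : τ → S) (d : ℕ) (hg : ∀ i, g i ∈ A d) (D : ℕ) (P : MvPolynomial τ ℤ) (hP : P.totalDegree ≤ D) :
    MvPolynomial.aeval g P ∈ A (D * d) := by
  classical
  rw [MvPolynomial.aeval_def, MvPolynomial.eval₂_eq]
  refine sum_mem fun s hs => ?_
  have hpow : ∀ i (k : ℕ), g i ^ k ∈ A (k * d) := by
    intro i k
    induction k with
    | zero => simpa using h1
    | succ k ih => rw [pow_succ, add_mul, one_mul]; exact hm _ _ _ _ ih (hg i)
  have hprod : ∀ T : Finset τ, ∏ i ∈ T, g i ^ s i ∈ A ((∑ i ∈ T, s i) * d) := by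
    intro T
    induction T using Finset.induction_on with
    | empty => simpa using h1
    | insert i T hi ih =>
      rw [Finset.prod_insert hi, Finset.sum_insert hi, add_mul]
      exact hm _ _ _ _ (hpow i _) ih
  have h2 : (∑ i ∈ s.support, s i) * d ≤ D * d := Nat.mul_le_mul_right _ ((MvPolynomial.le_totalDegree hs).trans hP)
  have h3 := hmono _ _ h2 (hprod s.support)
  rw [← Algebra.smul_def]
  exact zsmul_mem h3 _

end

/-- the filtration by the total degree -/
def tdF (τ : Type*) (n : ℕ) : AddSubgroup (MvPolynomial τ ℤ) where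
  carrier := {P | P.totalDegree ≤ n}
  add_mem' {a b} ha hb := (MvPolynomial.totalDegree_add a b).trans (max_le ha hb)
  zero_mem' := by simp
  neg_mem' {a} ha := by
    show (-a).totalDegree ≤ n
    rw [MvPolynomial.totalDegree_neg]; exact ha

lemma tdF_one (τ : Type*) : (1 : MvPolynomial τ ℤ) ∈ tdF τ 0 := by
  show (1 : MvPolynomial τ ℤ).totalDegree ≤ 0
  simp

lemma tdF_mul (τ : Type*) (m n : ℕ) (a b : MvPolynomial τ ℤ) (ha : a ∈ tdF τ m) (hb : b ∈ tdF τ n) :
    a * b ∈ tdF τ (m + n) := (MvPolynomial.totalDegree_mul a b).trans (Nat.add_le_add ha hb)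

lemma tdF_mono (τ : Type*) (m n : ℕ) (h : m ≤ n) : tdF τ m ≤ tdF τ n := fun _ ha => le_trans ha h

/-- the filtration of the polynomials over the polynomials in several variables -/
def pdF (τ : Type*) (n : ℕ) : AddSubgroup (Polynomial (MvPolynomial τ ℤ)) where
  carrier := {P | P.natDegree ≤ n ∧ ∀ i, P.coeff i ∈ tdF τ n}
  add_mem' {a b} ha hb := ⟨(Polynomial.natDegree_add_le _ _).trans (max_le ha.1 hb.1), fun i => by
    rw [Polynomial.coeff_add]; exact add_mem (ha.2 i) (hb.2 i)⟩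
  zero_mem' := ⟨by simp, fun i => by rw [Polynomial.coeff_zero]; exact zero_mem _⟩
  neg_mem' {a} ha := by
    refine ⟨?_, fun i => ?_⟩
    · rw [Polynomial.natDegree_neg]; exact ha.1
    · rw [Polynomial.coeff_neg]; exact neg_mem (ha.2 i)

lemma pdF_one (τ : Type*) : (1 : Polynomial (MvPolynomial τ ℤ)) ∈ pdF τ 0 := by
  refine ⟨by simp, fun i => ?_⟩
  rw [Polynomial.coeff_one]
  split_ifs
  · exact tdF_one τ
  · exact zero_mem _

lemma pdF_mul (τ : Type*) (m n : ℕ) (a b : Polynomial (MvPolynomial τ ℤ)) (ha : a ∈ pdF τ m) (hb : b ∈ pdF τ n) :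
    a * b ∈ pdF τ (m + n) := by
  refine ⟨Polynomial.natDegree_mul_le.trans (Nat.add_le_add ha.1 hb.1), fun i => ?_⟩
  rw [Polynomial.coeff_mul]
  exact sum_mem fun x _ => tdF_mul τ m n _ _ (ha.2 _) (hb.2 _)

lemma pdF_mono (τ : Type*) (m n : ℕ) (h : m ≤ n) : pdF τ m ≤ pdF τ n := fun _ ha =>
  ⟨ha.1.trans h, fun i => tdF_mono τ m n h (ha.2 i)⟩

end Pool.Agent.Helper116_EM
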