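import Pool.Agent.Helper116_EM.Core

/-!
# A measure for the theorem of Siegel and Shidlovskii over `ℚ`: the end of the proof (helper116)

The estimates are those of `Pool.Agent.R352.E.Fin`; the choice of the parameter is new.
-/

set_option autoImplicit false

open PowerSeries Finset.HasAntidiagonal

namespace Pool.Agent.Helper116_EM

open Pool.Agent.Y113 Pool.Agent.R352.E

lemma choose_nu (n₀ : ℕ) (hn : 2 ≤ n₀) (T : ℝ) :
    ∃ n : ℕ, n₀ ≤ n ∧ T ≤ (n : ℝ) ^ n ∧ (n : ℝ) ^ n ≤ (n₀ : ℝ) ^ n₀ * (max T 1) ^ 3 := by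
  classical
  have hex : ∃ n : ℕ, n₀ ≤ n ∧ T ≤ (n : ℝ) ^ n := by
    obtain ⟨k, hk⟩ := exists_nat_ge T
    refine ⟨max n₀ (k + 1), le_max_left _ _, hk.trans ?_⟩
    have h1 : k ≤ max n₀ (k + 1) := (Nat.le_succ k).trans (le_max_right _ _)
    have h2 : max n₀ (k + 1) ≤ (max n₀ (k + 1)) ^ (max n₀ (k + 1)) := Nat.le_self_pow (by omega) _
    exact_mod_cast h1.trans h2
  have hs := Nat.find_spec hex
  set n := Nat.find hex with hndef
  have hn₀1 : (1 : ℝ) ≤ (n₀ : ℝ) ^ n₀ := one_le_pow₀ (by exact_mod_cast (by omega : 1 ≤ n₀))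
  have hM1 : (1 : ℝ) ≤ (max T 1) ^ 3 := one_le_pow₀ (le_max_right _ _)
  refine ⟨n, hs.1, hs.2, ?_⟩
  rcases hs.1.eq_or_lt with h | h
  · rw [← h]
    nlinarith
  · obtain ⟨m, hm⟩ : ∃ m, n = m + 1 := ⟨n - 1, by omega⟩
    have h1 := Nat.find_min hex (m := m) (by rw [← hndef]; omega)
    have hm0 : n₀ ≤ m := by omega
    have h2 : (m : ℝ) ^ m < T := by
      by_contra hcon
      exact h1 ⟨hm0, not_lt.1 hcon⟩
    rw [hm]
    have h3 : (m + 1) ^ (m + 1) ≤ (m ^ m) ^ 3 := by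
      have h4 : m + 1 ≤ m ^ 2 := by nlinarith
      calc (m + 1) ^ (m + 1) ≤ (m ^ 2) ^ (m + 1) := Nat.pow_le_pow_left h4 _
        _ = m ^ (2 * (m + 1)) := by rw [← pow_mul]
        _ ≤ m ^ (m * 3) := Nat.pow_le_pow_right (by omega) (by omega)
        _ = (m ^ m) ^ 3 := by rw [pow_mul]
    have h5 : ((m + 1 : ℕ) : ℝ) ^ (m + 1) ≤ ((m : ℝ) ^ m) ^ 3 := by exact_mod_cast h3
    have h6 : ((m : ℝ) ^ m) ^ 3 ≤ (max T 1) ^ 3 :=
      pow_le_pow_left₀ (by positivity) (h2.le.trans (le_max_left _ _)) 3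
    refine h5.trans (h6.trans ?_)
    exact le_mul_of_one_le_left (by positivity) hn₀1

theorem E_meas {N q : ℕ} {C : ℝ} {y : Fin N → ℚ⟦X⟧} (hE : ESys q C y) (i₀ : Fin N) (h1 : y i₀ = 1)
    (hLI : LinearIndependent (Polynomial ℚ) y) :
    ∃ (κ : ℕ) (c : ℝ), 0 < c ∧ ∀ (a : Fin N → ℤ), a ≠ 0 → ∀ A : ℝ, 1 ≤ A → (∀ i, |(a i : ℝ)| ≤ A) →
      c ≤ A ^ κ * |∑ i, (a i : ℝ) * ev 1 (y i)| := by
  have hC := hE.one_le
  have hNpos : 0 < N := i₀.pos
  -- the case N = 1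
  rcases Nat.lt_or_ge N 2 with hN | hN
  · have hN1 : N = 1 := by omega
    subst hN1
    refine ⟨0, 1, one_pos, fun a ha A hA1 hA => ?_⟩
    have hi : ∀ j : Fin 1, j = i₀ := fun j => Subsingleton.elim _ _
    have h2 : ∑ i, (a i : ℝ) * ev 1 (y i) = (a i₀ : ℝ) := by
      rw [Fin.sum_univ_one]
      rw [hi 0, h1, ev_one, mul_one]
    rw [h2, pow_zero, one_mul]
    have h3 : a i₀ ≠ 0 := by
      intro h
      apply ha
      funext i
      rw [hi i, h]; rfl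
    exact_mod_cast Int.one_le_abs h3
  obtain ⟨B, hB⟩ := hE.der
  have hq1 : (1 : ℝ) ≤ q := by exact_mod_cast hE.hq
  obtain ⟨c₁, hc₁⟩ := rank_nab (T := TQ q) (B := fun i j => (B i j).map (Int.castRingHom ℚ)) hB hLI i₀ h1 1
    one_ne_zero (by
      simp only [TQ, Polynomial.eval_mul, Polynomial.eval_C, Polynomial.eval_X, mul_one]
      exact_mod_cast (by have := hE.hq; omega : q ≠ 0))
  obtain ⟨b, hb, hBb⟩ : ∃ b : ℕ, 1 ≤ b ∧ ∀ i j, (B i j).natDegree ≤ b := by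
    refine ⟨1 + ∑ i, ∑ j, (B i j).natDegree, by omega, fun i j => ?_⟩
    have h2 : (B i j).natDegree ≤ ∑ j, (B i j).natDegree :=
      Finset.single_le_sum (f := fun j => (B i j).natDegree) (fun _ _ => Nat.zero_le _) (Finset.mem_univ j)
    have h3 : ∑ j, (B i j).natDegree ≤ ∑ i, ∑ j, (B i j).natDegree :=
      Finset.single_le_sum (f := fun i => ∑ j, (B i j).natDegree) (fun _ _ => Nat.zero_le _) (Finset.mem_univ i)
    omega
  obtain ⟨β, hβ0, hβ⟩ : ∃ β : ℝ, 0 ≤ β ∧ ∀ j, ∑ i, l1 (B i j) ≤ β := by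
    refine ⟨∑ j, ∑ i, l1 (B i j), Finset.sum_nonneg fun _ _ => Finset.sum_nonneg fun _ _ => l1_nonneg _, fun j => ?_⟩
    exact Finset.single_le_sum (f := fun j => ∑ i, l1 (B i j))
      (fun _ _ => Finset.sum_nonneg fun _ _ => l1_nonneg _) (Finset.mem_univ j)
  -- parameters
  set L : ℕ := 2 * N + 1 with hL
  have hNL : 2 ≤ N * L := by
    calc 2 ≤ N := hN
      _ = N * 1 := (mul_one N).symm
      _ ≤ N * L := Nat.mul_le_mul_left _ (by omega)
  set g1 : ℝ := 2 * ((L + 2 * b + 1 : ℕ) : ℝ) with hg1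
  set g2 : ℝ := q * ((L + 2 * b : ℕ) : ℝ) + β with hg2
  set g3 : ℝ := ((2 * (N * (L + 1) : ℕ)) * (2 * C) ^ (2 * (N * L))) ^ (N * L) with hg3
  set G1 : ℝ := g1 * (g2 ^ 2 * ((L : ℝ) ^ L * g3)) with hG1
  set G2 : ℝ := (L : ℝ) ^ L * g3 * (q : ℝ) ^ 2 * 4 * (2 * C * Real.exp 1) ^ (N * L - 1) with hG2
  set c2 : ℝ := N * C * Real.exp (2 * C * Real.exp 1) with hc2
  set G : ℝ := G1 ^ (N - 2) * G2 with hG
  set c0 : ℝ := N * N.factorial * c2 with hc0
  have hG0 : 0 ≤ G := by positivity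
  have hG10 : 0 ≤ G1 := by positivity
  have hc00 : 0 ≤ c0 := by positivity
  have hkey : ∀ (a : Fin N → ℤ), a ≠ 0 → ∀ A : ℝ, 0 ≤ A → (∀ i, |(a i : ℝ)| ≤ A) → ∀ ν : ℕ, c₁ < ν →
      1 ≤ c0 * A * G ^ ν / (ν : ℝ) ^ ν + N.factorial * (G1 ^ ν * ((ν : ℝ) ^ ν) ^ (L + 2)) ^ (N - 1) *
        |∑ i, (a i : ℝ) * ev 1 (y i)| := by
    intro a hane A hA0 hAi ν hν
    have hν1 : 1 ≤ ν := by omega
    have hν1' : (1 : ℝ) ≤ ν := by exact_mod_cast hν1
    obtain ⟨n, hn⟩ : ∃ n, n = L * ν := ⟨_, rfl⟩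
    obtain ⟨m₀, hm₀⟩ : ∃ m₀, m₀ = (N * L - 1) * ν := ⟨_, rfl⟩
    obtain ⟨K, hK⟩ : ∃ K, K = 2 * ν := ⟨_, rfl⟩
    have hm₀' : m₀ + ν = N * n := by
      have h2 : N * n = N * L * ν := by rw [hn]; ring
      rw [h2, hm₀, Nat.sub_mul, one_mul]
      have : ν ≤ N * L * ν := Nat.le_mul_of_pos_left ν (by omega)
      omega
    have h := core2 hE i₀ h1 hB hb hBb hβ hβ0 hc₁ a hane A hAi L ν n m₀ K (by omega) hν hn hm₀' hK _ rfl
    set A₀ : ℝ := ((N * (n + 1) : ℕ) * (2 * C) ^ (2 * m₀ + 1)) ^ (N * L) with hA₀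
    have hA₀0 : 0 ≤ A₀ := by positivity
    have hA₀g : A₀ ≤ g3 ^ ν := A0_le hC hNpos hν1 hn hm₀'
    obtain ⟨u, hu⟩ : ∃ u : ℝ, u = (ν : ℝ) ^ ν := ⟨_, rfl⟩
    rw [← hu]
    have hu1 : 1 ≤ u := by rw [hu]; exact one_le_pow₀ hν1'
    have hu0 : 0 < u := by linarith
    have hnf : (n.factorial : ℝ) ≤ ((L : ℝ) ^ L) ^ ν * u ^ L := by rw [hn, hu]; exact fac_le L ν
    -- X
    have hX : ((n + K * b : ℕ) + 1) * ((q * (n + K * b : ℕ) + β) ^ K * (n.factorial * A₀)) ≤ G1 ^ ν * u ^ (L + 2) := by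
      have hnK : n + K * b = (L + 2 * b) * ν := by rw [hn, hK]; ring
      have h2 : (((n + K * b : ℕ) : ℝ) + 1) ≤ g1 ^ ν := by
        have h3 : (1 : ℝ) ≤ ((L + 2 * b + 1 : ℕ) : ℝ) := by exact_mod_cast (show 1 ≤ L + 2 * b + 1 by omega)
        refine le_trans ?_ (lin_le_pow h3 hν1)
        rw [hnK]
        push_cast
        nlinarith
      have h4 : (q * ((n + K * b : ℕ) : ℝ) + β) ^ K ≤ (g2 ^ 2) ^ ν * u ^ 2 := by
        have h5 : q * ((n + K * b : ℕ) : ℝ) + β ≤ g2 * ν := by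
          rw [hnK, hg2]
          push_cast
          nlinarith
        calc (q * ((n + K * b : ℕ) : ℝ) + β) ^ K ≤ (g2 * ν) ^ K := pow_le_pow_left₀ (by positivity) h5 K
          _ = (g2 ^ 2) ^ ν * u ^ 2 := by
            rw [hK, hu, mul_pow, ← pow_mul, ← pow_mul, mul_comm ν 2]
      calc ((n + K * b : ℕ) + 1) * ((q * (n + K * b : ℕ) + β) ^ K * (n.factorial * A₀))
          ≤ g1 ^ ν * (((g2 ^ 2) ^ ν * u ^ 2) * ((((L : ℝ) ^ L) ^ ν * u ^ L) * g3 ^ ν)) := by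
            refine mul_le_mul h2 ?_ (by positivity) (by positivity)
            refine mul_le_mul h4 ?_ (by positivity) (by positivity)
            exact mul_le_mul hnf hA₀g hA₀0 (by positivity)
        _ = G1 ^ ν * u ^ (L + 2) := by
            rw [hG1, mul_pow g1, mul_pow (g2 ^ 2), mul_pow ((L : ℝ) ^ L), pow_add u]
            generalize g1 ^ ν = x1
            generalize (g2 ^ 2) ^ ν = x2
            generalize ((L : ℝ) ^ L) ^ ν = x3
            generalize g3 ^ ν = x4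
            ring
    have hLL : n.factorial * (N * A₀ * C) * (q : ℝ) ^ K * K.factorial *
        ((2 * C * Real.exp 1) ^ m₀ / m₀.factorial * Real.exp (2 * C * Real.exp 1)) ≤
        c2 * G2 ^ ν * (u ^ (L + 2) / u ^ (N * L - 2)) := by
      have h2 : (K.factorial : ℝ) ≤ (4 : ℝ) ^ ν * u ^ 2 := by
        rw [hK]
        refine (fac_le 2 ν).trans (le_of_eq ?_)
        rw [hu]
        norm_num
      have h3 : (q : ℝ) ^ K = ((q : ℝ) ^ 2) ^ ν := by rw [hK, pow_mul]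
      have h4 : (2 * C * Real.exp 1) ^ m₀ = ((2 * C * Real.exp 1) ^ (N * L - 1)) ^ ν := by rw [hm₀, pow_mul]
      have h5 : u ^ (N * L - 2) ≤ (m₀.factorial : ℝ) := by
        have := fac_ge (R := N * L - 1) (ν := ν) (by omega)
        rw [hm₀, hu, show N * L - 2 = N * L - 1 - 1 by omega]
        exact this
      have h6 : ((2 * C * Real.exp 1) ^ m₀ / m₀.factorial) ≤ ((2 * C * Real.exp 1) ^ (N * L - 1)) ^ ν / u ^ (N * L - 2) := by
        rw [h4]
        exact div_le_div_of_nonneg_left (by positivity) (by positivity) h5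
      calc n.factorial * (N * A₀ * C) * (q : ℝ) ^ K * K.factorial *
            ((2 * C * Real.exp 1) ^ m₀ / m₀.factorial * Real.exp (2 * C * Real.exp 1))
          ≤ (((L : ℝ) ^ L) ^ ν * u ^ L) * (N * g3 ^ ν * C) * ((q : ℝ) ^ 2) ^ ν * ((4 : ℝ) ^ ν * u ^ 2) *
            (((2 * C * Real.exp 1) ^ (N * L - 1)) ^ ν / u ^ (N * L - 2) * Real.exp (2 * C * Real.exp 1)) := by
            rw [← h3]
            refine mul_le_mul ?_ ?_ (by positivity) (by positivity)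
            · refine mul_le_mul ?_ h2 (by positivity) (by positivity)
              refine mul_le_mul_of_nonneg_right ?_ (by positivity)
              refine mul_le_mul hnf ?_ (by positivity) (by positivity)
              refine mul_le_mul_of_nonneg_right ?_ (by positivity)
              exact mul_le_mul_of_nonneg_left hA₀g (by positivity)
            · exact mul_le_mul_of_nonneg_right h6 (by positivity)
        _ = c2 * G2 ^ ν * (u ^ (L + 2) / u ^ (N * L - 2)) := by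
            rw [hG2, hc2, mul_pow, mul_pow, mul_pow, mul_pow, pow_add]; ring
    refine h.trans (add_le_add ?_ ?_)
    · have hcomb : (N : ℝ) * (N.factorial * (A *
          (((n + K * b : ℕ) + 1) * ((q * (n + K * b : ℕ) + β) ^ K * (n.factorial * A₀))) ^ (N - 2)) *
          (n.factorial * (N * A₀ * C) * (q : ℝ) ^ K * K.factorial *
            ((2 * C * Real.exp 1) ^ m₀ / m₀.factorial * Real.exp (2 * C * Real.exp 1)))) ≤
          N * (N.factorial * (A * (G1 ^ ν * u ^ (L + 2)) ^ (N - 2)) *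
          (c2 * G2 ^ ν * (u ^ (L + 2) / u ^ (N * L - 2)))) := by
        refine mul_le_mul_of_nonneg_left ?_ (by positivity)
        refine mul_le_mul ?_ hLL (by positivity) (by positivity)
        refine mul_le_mul_of_nonneg_left ?_ (by positivity)
        refine mul_le_mul_of_nonneg_left ?_ hA0
        exact pow_le_pow_left₀ (by positivity) hX _
      have hexp : u ^ (N * L - 2) = (u ^ (L + 2)) ^ (N - 2) * u ^ (L + 2) * u := by
        rw [← pow_mul, ← pow_add, ← pow_succ]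
        congr 1
        obtain ⟨M, hM⟩ : ∃ M, N = M + 2 := ⟨N - 2, by omega⟩
        rw [hL, hM]
        simp only [Nat.add_sub_cancel]
        have e1 : (M + 2) * (2 * (M + 2) + 1) = (2 * (M + 2) + 1 + 2) * M + (2 * (M + 2) + 1 + 2) + 1 + 2 := by
          ring
        omega
      have h7 : N * (N.factorial * (A * (G1 ^ ν * u ^ (L + 2)) ^ (N - 2)) *
          (c2 * G2 ^ ν * (u ^ (L + 2) / u ^ (N * L - 2)))) = c0 * A * G ^ ν / u := by
        rw [hexp, hc0, hG, mul_pow (G1 ^ ν), mul_pow (G1 ^ (N - 2)), ← pow_mul G1, ← pow_mul G1, mul_comm ν (N - 2)]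
        field_simp
      rw [h7] at hcomb
      exact hcomb
    · refine mul_le_mul_of_nonneg_right ?_ (abs_nonneg _)
      refine mul_le_mul_of_nonneg_left ?_ (by positivity)
      exact pow_le_pow_left₀ (by positivity) hX _
  -- the choice of the parameter
  obtain ⟨ν₀, hν₀2, hν₀c, hν₀G, hν₀G1⟩ : ∃ ν₀ : ℕ, 2 ≤ ν₀ ∧ c₁ < ν₀ ∧ G ^ 2 ≤ ν₀ ∧ G1 ≤ ν₀ := by
    obtain ⟨k1, hk1⟩ := exists_nat_ge (G ^ 2)
    obtain ⟨k2, hk2⟩ := exists_nat_ge G1
    refine ⟨2 + c₁ + k1 + k2, by omega, by omega, hk1.trans ?_, hk2.trans ?_⟩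
    · exact_mod_cast (by omega : k1 ≤ 2 + c₁ + k1 + k2)
    · exact_mod_cast (by omega : k2 ≤ 2 + c₁ + k1 + k2)
  set D : ℝ := (ν₀ : ℝ) ^ ν₀ * (2 * c0 + 1) ^ 6 with hD
  have hD0 : 0 < D := by positivity
  refine ⟨6 * (L + 3) * (N - 1), 1 / (2 * N.factorial * D ^ ((L + 3) * (N - 1))), by positivity, ?_⟩
  intro a hane A hA1 hAi
  obtain ⟨ν, hνν, hν1, hν2⟩ := choose_nu ν₀ hν₀2 ((2 * c0 * A) ^ 2)
  have h := hkey a hane A (by linarith) hAi ν (by omega)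
  obtain ⟨u, hu⟩ : ∃ u : ℝ, u = (ν : ℝ) ^ ν := ⟨_, rfl⟩
  rw [← hu] at h hν1 hν2
  set ε : ℝ := |∑ i, (a i : ℝ) * ev 1 (y i)| with hε
  have hε0 : 0 ≤ ε := abs_nonneg _
  have hνr : (ν₀ : ℝ) ≤ ν := by exact_mod_cast hνν
  have hν1' : (1 : ℝ) ≤ ν := by exact_mod_cast (by omega : 1 ≤ ν)
  have hu1 : 1 ≤ u := by rw [hu]; exact one_le_pow₀ hν1'
  have hu0 : 0 < u := by linarith
  have hs : Real.sqrt u * Real.sqrt u = u := Real.mul_self_sqrt hu0.le
  have hGu : G ^ ν ≤ Real.sqrt u := by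
    apply Real.le_sqrt_of_sq_le
    rw [← pow_mul, mul_comm, pow_mul, hu]
    exact pow_le_pow_left₀ (by positivity) (hν₀G.trans hνr) ν
  have hG1u : G1 ^ ν ≤ u := by
    rw [hu]
    exact pow_le_pow_left₀ hG10 (hν₀G1.trans hνr) ν
  have hAu : 2 * c0 * A ≤ Real.sqrt u := Real.le_sqrt_of_sq_le hν1
  have hfirst : c0 * A * G ^ ν / u ≤ 1 / 2 := by
    rw [div_le_div_iff₀ hu0 (by norm_num : (0 : ℝ) < 2)]
    have h2 : (2 * c0 * A) * G ^ ν ≤ Real.sqrt u * Real.sqrt u :=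
      mul_le_mul hAu hGu (by positivity) (Real.sqrt_nonneg _)
    rw [hs] at h2
    linarith
  have hsecond : 1 / 2 ≤ N.factorial * (G1 ^ ν * u ^ (L + 2)) ^ (N - 1) * ε := by linarith
  have huD : u ≤ D * A ^ 6 := by
    refine hν2.trans ?_
    have h2 : max ((2 * c0 * A) ^ 2) 1 ≤ ((2 * c0 + 1) * A) ^ 2 := by
      apply max_le
      · have h3 : 2 * c0 * A ≤ (2 * c0 + 1) * A := by nlinarith
        have h4 : 0 ≤ 2 * c0 * A := by positivity
        exact pow_le_pow_left₀ h4 h3 2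
      · apply one_le_pow₀
        nlinarith
    have h5 : (max ((2 * c0 * A) ^ 2) 1) ^ 3 ≤ (2 * c0 + 1) ^ 6 * A ^ 6 := by
      calc (max ((2 * c0 * A) ^ 2) 1) ^ 3 ≤ (((2 * c0 + 1) * A) ^ 2) ^ 3 :=
            pow_le_pow_left₀ (le_trans zero_le_one (le_max_right _ _)) h2 3
        _ = _ := by ring
    calc (ν₀ : ℝ) ^ ν₀ * (max ((2 * c0 * A) ^ 2) 1) ^ 3 ≤ (ν₀ : ℝ) ^ ν₀ * ((2 * c0 + 1) ^ 6 * A ^ 6) :=
          mul_le_mul_of_nonneg_left h5 (by positivity)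
      _ = D * A ^ 6 := by rw [hD]; ring
  have hthird : (G1 ^ ν * u ^ (L + 2)) ^ (N - 1) ≤ D ^ ((L + 3) * (N - 1)) * A ^ (6 * (L + 3) * (N - 1)) := by
    have h2 : G1 ^ ν * u ^ (L + 2) ≤ (D * A ^ 6) ^ (L + 3) := by
      calc G1 ^ ν * u ^ (L + 2) ≤ u * u ^ (L + 2) := mul_le_mul_of_nonneg_right hG1u (by positivity)
        _ = u ^ (L + 3) := by ring
        _ ≤ _ := pow_le_pow_left₀ hu0.le huD _
    calc (G1 ^ ν * u ^ (L + 2)) ^ (N - 1) ≤ ((D * A ^ 6) ^ (L + 3)) ^ (N - 1) :=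
          pow_le_pow_left₀ (by positivity) h2 _
      _ = _ := by rw [← pow_mul, mul_pow, ← pow_mul, mul_assoc 6]
  rw [div_le_iff₀ (by positivity)]
  have hfour : N.factorial * (G1 ^ ν * u ^ (L + 2)) ^ (N - 1) * ε ≤
      N.factorial * (D ^ ((L + 3) * (N - 1)) * A ^ (6 * (L + 3) * (N - 1))) * ε := by
    refine mul_le_mul_of_nonneg_right ?_ hε0
    exact mul_le_mul_of_nonneg_left hthird (by positivity)
  nlinarith

end Pool.Agent.Helper116_EM
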