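import Pool.Agent.Helper116_EM.Tow
import Pool.Agent.Helper116_EM.Len

/-!
# Measures of algebraic independence (helper116)
-/

set_option autoImplicit false
set_option linter.unusedSectionVars false

open Finset

namespace Pool.Agent.Helper116_EM

/-- a measure of algebraic independence of polynomial type in every degree -/
def MeasI {ι : Type*} (θ : ι → ℝ) : Prop :=
  ∀ D : ℕ, ∃ (κ : ℕ) (c : ℝ), 0 < c ∧ ∀ P : MvPolynomial ι ℤ, P ≠ 0 → P.totalDegree ≤ D → ∀ H : ℝ, 1 ≤ H →
    (∀ s, |((MvPolynomial.coeff s P : ℤ) : ℝ)| ≤ H) → c ≤ H ^ κ * |MvPolynomial.aeval θ P|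

lemma MeasI.ne_zero {ι : Type*} {θ : ι → ℝ} (h : MeasI θ) {P : MvPolynomial ι ℤ} (hP : P ≠ 0) :
    MvPolynomial.aeval θ P ≠ 0 := by
  intro h0
  obtain ⟨κ, c, hc, hm⟩ := h P.totalDegree
  have h1 := hm P hP le_rfl (1 + ml P) (by linarith [ml_nonneg P]) (fun s => by linarith [coeff_le_ml P s])
  rw [h0, abs_zero, mul_zero] at h1
  linarith

lemma MeasI.comp {ι κ : Type*} {θ : ι → ℝ} (h : MeasI θ) (e : κ → ι) (he : Function.Injective e) :
    MeasI (fun k => θ (e k)) := by
  intro D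
  obtain ⟨k, c, hc, hm⟩ := h D
  refine ⟨k, c, hc, fun P hP hPD H hH hPH => ?_⟩
  have hinj := MvPolynomial.rename_injective (R := ℤ) e he
  have h1 := hm (MvPolynomial.rename e P) (fun h0 => hP (hinj (by rw [h0, map_zero])))
    ((MvPolynomial.totalDegree_rename_le e P).trans hPD) H hH (fun s => by
      classical
      by_cases hs : MvPolynomial.coeff s (MvPolynomial.rename e P) = 0
      · rw [hs]; simp only [Int.cast_zero, abs_zero]; linarith
      · obtain ⟨u, hu, _⟩ := MvPolynomial.coeff_rename_ne_zero _ _ _ hs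
        rw [← hu, MvPolynomial.coeff_rename_mapDomain e he]
        exact hPH u)
  rwa [MvPolynomial.aeval_rename] at h1

theorem measI_tower {σ : Type} [Fintype σ] [LinearOrder σ] {t : Pool.Agent.R352.T.Tv σ} {q : ℕ}
    {f : σ → PowerSeries ℚ} (R : Pool.Agent.R352.T.Real' t q f) :
    MeasI (fun i : {i : σ // i ≠ t.z} => Pool.Agent.Y113.ev 1 (f i.1)) := by
  classical
  intro D
  obtain ⟨k, c, hc, hm⟩ := poly_meas R D
  refine ⟨k, c, hc, fun P hP hPD H hH hPH => ?_⟩
  have hsub : Function.Injective (Subtype.val : {i : σ // i ≠ t.z} → σ) := Subtype.val_injective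
  have hinj := MvPolynomial.rename_injective (R := ℤ) _ hsub
  have h1 := hm (MvPolynomial.rename Subtype.val P) (fun h0 => hP (hinj (by rw [h0, map_zero])))
    (by
      intro s hs
      have h1 := MvPolynomial.coeff_rename_ne_zero _ _ _ (MvPolynomial.mem_support_iff.1 hs)
      obtain ⟨u, hu, _⟩ := h1
      rw [← hu]
      apply Finsupp.mapDomain_of_notMem_range
      rintro ⟨i, hi⟩
      exact i.2 hi)
    ((MvPolynomial.totalDegree_rename_le _ P).trans hPD) H hH (fun s => by
      by_cases hs : MvPolynomial.coeff s (MvPolynomial.rename (Subtype.val : {i : σ // i ≠ t.z} → σ) P) = 0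
      · rw [hs]; simp only [Int.cast_zero, abs_zero]; linarith
      · obtain ⟨u, hu, _⟩ := MvPolynomial.coeff_rename_ne_zero _ _ _ hs
        rw [← hu, MvPolynomial.coeff_rename_mapDomain _ hsub]
        exact hPH u)
  rw [MvPolynomial.aeval_rename] at h1
  exact h1

lemma filt_pow {S : Type*} [CommRing S] (A : ℕ → AddSubgroup S) (h1 : (1 : S) ∈ A 0)
    (hm : ∀ m n a b, a ∈ A m → b ∈ A n → a * b ∈ A (m + n)) {a : S} {d : ℕ} (ha : a ∈ A d) (k : ℕ) :
    a ^ k ∈ A (k * d) := by
  induction k with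
  | zero => simpa using h1
  | succ k ih => rw [pow_succ, add_mul, one_mul]; exact hm _ _ _ _ ih ha

theorem MeasI.subst {ι κ : Type*} [Fintype κ] {β : ι → ℝ} (hβ : MeasI β) (θ : κ → ℝ)
    (hθ : ∀ P : MvPolynomial κ ℤ, P ≠ 0 → MvPolynomial.aeval θ P ≠ 0) (G : MvPolynomial ι ℤ)
    (F : κ → MvPolynomial ι ℤ) (hG : MvPolynomial.aeval β G ≠ 0)
    (hF : ∀ j, θ j * MvPolynomial.aeval β G = MvPolynomial.aeval β (F j)) : MeasI θ := by
  classical
  intro D
  set d : ℕ := G.totalDegree + ∑ j, (F j).totalDegree with hd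
  have hGd : G ∈ tdF ι d := by
    show G.totalDegree ≤ d
    omega
  have hFd : ∀ j, F j ∈ tdF ι d := by
    intro j
    show (F j).totalDegree ≤ d
    have := Finset.single_le_sum (f := fun j => (F j).totalDegree) (fun _ _ => Nat.zero_le _) (Finset.mem_univ j)
    have h2 : (F j).totalDegree ≤ ∑ j, (F j).totalDegree := this
    omega
  set Λ : ℝ := 1 + ml G + ∑ j, ml (F j) with hΛ
  have hsum0 : 0 ≤ ∑ j, ml (F j) := Finset.sum_nonneg fun j _ => ml_nonneg _
  have hG0 := ml_nonneg G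
  have hΛ1 : 1 ≤ Λ := by rw [hΛ]; linarith
  have hGΛ : ml G ≤ Λ := by rw [hΛ]; linarith
  have hFΛ : ∀ j, ml (F j) ≤ Λ := by
    intro j
    have : ml (F j) ≤ ∑ j, ml (F j) :=
      Finset.single_le_sum (f := fun j => ml (F j)) (fun _ _ => ml_nonneg _) (Finset.mem_univ j)
    rw [hΛ]; linarith
  obtain ⟨k, c, hc, hm⟩ := hβ (D * d)
  set g : ℝ := MvPolynomial.aeval β G with hg
  have hg0 : 0 < |g| := abs_pos.2 hG
  set B : ℝ := ((D : ℝ) + 1) ^ (Fintype.card κ) * Λ ^ D with hB
  have hD1 : (1 : ℝ) ≤ (D : ℝ) + 1 := by linarith [show (0 : ℝ) ≤ D by positivity]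
  have hB1 : 1 ≤ B := one_le_mul_of_one_le_of_one_le (one_le_pow₀ hD1) (one_le_pow₀ hΛ1)
  refine ⟨k, c / (B ^ k * |g| ^ D), by positivity, fun P hP hPD H hH hPH => ?_⟩
  let E : (κ →₀ ℕ) → MvPolynomial ι ℤ := fun s => G ^ (D - ∑ j, s j) * ∏ j, F j ^ s j
  have hsD : ∀ s ∈ P.support, ∑ j, s j ≤ D := by
    intro s hs
    have h2 := MvPolynomial.le_totalDegree hs
    rw [Finsupp.sum_fintype _ _ (fun _ => rfl)] at h2
    exact h2.trans hPD
  set p' : MvPolynomial ι ℤ := ∑ s ∈ P.support, MvPolynomial.C (MvPolynomial.coeff s P) * E s with hp'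
  have hval : MvPolynomial.aeval β p' = g ^ D * MvPolynomial.aeval θ P := by
    rw [hp', map_sum]
    conv_rhs => rw [MvPolynomial.aeval_def, MvPolynomial.eval₂_eq', Finset.mul_sum]
    refine Finset.sum_congr rfl fun s hs => ?_
    simp only [E, map_mul, map_pow, map_prod, MvPolynomial.aeval_C]
    rw [← hg]
    have h2 : ∏ j, MvPolynomial.aeval β (F j) ^ s j = (∏ j, θ j ^ s j) * g ^ ∑ j, s j := by
      rw [← Finset.prod_pow_eq_pow_sum, ← Finset.prod_mul_distrib]
      refine Finset.prod_congr rfl fun j _ => ?_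
      rw [← hF j, mul_pow]
    rw [h2]
    have h3 : g ^ D = g ^ (D - ∑ j, s j) * g ^ ∑ j, s j := by
      rw [← pow_add]
      congr 1
      have := hsD s hs
      omega
    rw [h3]
    ring
  have hPθ := hθ P hP
  have hp'0 : p' ≠ 0 := by
    intro h0
    rw [h0, map_zero] at hval
    exact mul_ne_zero (pow_ne_zero _ hG) hPθ hval.symm
  have hp'd : p'.totalDegree ≤ D * d := by
    have h2 : p' ∈ tdF ι (D * d) := by
      rw [hp']
      refine sum_mem fun s hs => ?_
      have hC : (MvPolynomial.C (MvPolynomial.coeff s P) : MvPolynomial ι ℤ) ∈ tdF ι 0 := by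
        show (MvPolynomial.C (MvPolynomial.coeff s P) : MvPolynomial ι ℤ).totalDegree ≤ 0
        rw [MvPolynomial.totalDegree_C]
      have h3 := filt_pow (tdF ι) (tdF_one ι) (tdF_mul ι) hGd (D - ∑ j, s j)
      have h4 : ∀ T : Finset κ, ∏ j ∈ T, F j ^ s j ∈ tdF ι ((∑ j ∈ T, s j) * d) := by
        intro T
        induction T using Finset.induction_on with
        | empty => simpa using tdF_one ι
        | insert i T hi ih =>
          rw [Finset.prod_insert hi, Finset.sum_insert hi, add_mul]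
          exact tdF_mul ι _ _ _ _ (filt_pow (tdF ι) (tdF_one ι) (tdF_mul ι) (hFd i) _) ih
      have h5 := tdF_mul ι _ _ _ _ hC (tdF_mul ι _ _ _ _ h3 (h4 Finset.univ))
      refine tdF_mono ι _ _ (le_of_eq ?_) h5
      rw [zero_add, ← add_mul]
      congr 1
      have := hsD s hs
      omega
    exact h2
  have hp'm : ml p' ≤ B * H := by
    rw [hp']
    refine (ml_sum _ _).trans ?_
    have h2 : ∀ s ∈ P.support, ml (MvPolynomial.C (MvPolynomial.coeff s P) * E s) ≤ H * Λ ^ D := by
      intro s hs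
      refine (ml_mul _ _).trans ?_
      refine mul_le_mul ?_ ?_ (ml_nonneg _) (by linarith)
      · have h3 := ml_monomial (0 : ι →₀ ℕ) (MvPolynomial.coeff s P)
        exact h3.trans (hPH s)
      · simp only [E]
        refine (ml_mul _ _).trans ?_
        have h3 : ml (G ^ (D - ∑ j, s j)) ≤ Λ ^ (D - ∑ j, s j) := len_pow isLen_ml hGΛ _
        have h4 : ml (∏ j, F j ^ s j) ≤ Λ ^ ∑ j, s j := by
          refine (isLen_ml.prod _ _).trans ?_
          rw [← Finset.prod_pow_eq_pow_sum]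
          exact Finset.prod_le_prod (fun i _ => ml_nonneg _) fun i _ => len_pow isLen_ml (hFΛ i) _
        calc ml (G ^ (D - ∑ j, s j)) * ml (∏ j, F j ^ s j) ≤ Λ ^ (D - ∑ j, s j) * Λ ^ ∑ j, s j :=
              mul_le_mul h3 h4 (ml_nonneg _) (by positivity)
          _ = Λ ^ D := by
            rw [← pow_add]
            congr 1
            have := hsD s hs
            omega
    refine (Finset.sum_le_sum h2).trans ?_
    rw [Finset.sum_const, nsmul_eq_mul, hB]
    have h3 := card_support_le P D hPD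
    have h4 : 0 ≤ H * Λ ^ D := by positivity
    calc (P.support.card : ℝ) * (H * Λ ^ D) ≤ ((D : ℝ) + 1) ^ (Fintype.card κ) * (H * Λ ^ D) :=
          mul_le_mul_of_nonneg_right h3 h4
      _ = _ := by ring
  have hBH : 1 ≤ B * H := one_le_mul_of_one_le_of_one_le hB1 hH
  have h2 := hm p' hp'0 hp'd (B * H) hBH (fun s => (coeff_le_ml p' s).trans hp'm)
  rw [hval, abs_mul, abs_pow] at h2
  rw [div_le_iff₀ (by positivity)]
  calc c ≤ (B * H) ^ k * (|g| ^ D * |MvPolynomial.aeval θ P|) := h2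
    _ = _ := by rw [mul_pow]; ring

end Pool.Agent.Helper116_EM
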