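import Pool.Agent.Helper116_EM.Joint
import Pool.Agent.Helper116_EM.Cx

/-!
# One number against several (helper116)
-/

set_option autoImplicit false
set_option linter.unusedSectionVars false

open Finset

namespace Pool.Agent.Helper116_EM

open Pool.Agent.R356 (IsLen det_filt sylv_entry len len_C le_len)

section

variable {ι : Type*} [Fintype ι]

lemma isLen_ply : IsLen (len (ml : MvPolynomial ι ℤ → ℝ)) := isLen_ml.poly

lemma ply_int (z : ℤ) : len (ml : MvPolynomial ι ℤ → ℝ) (z : Polynomial (MvPolynomial ι ℤ)) ≤ |(z : ℝ)| := by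
  have h1 : (z : Polynomial (MvPolynomial ι ℤ)) = Polynomial.C ((z : ℤ) : MvPolynomial ι ℤ) := by simp
  rw [h1, len_C isLen_ml]
  exact ml_int z

lemma ply_X : len (ml : MvPolynomial ι ℤ → ℝ) (Polynomial.X : Polynomial (MvPolynomial ι ℤ)) ≤ 1 := by
  rw [Pool.Agent.R356.len_eq isLen_ml _ 2 (by
    have := Polynomial.natDegree_X_le (R := MvPolynomial ι ℤ)
    omega), Finset.sum_range_succ, Finset.sum_range_succ, Finset.sum_range_zero]
  rw [Polynomial.coeff_X_zero, Polynomial.coeff_X_one, ml_zero, zero_add, zero_add]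
  exact isLen_ml.one

lemma ply_C (i : ι) : len (ml : MvPolynomial ι ℤ → ℝ) (Polynomial.C (MvPolynomial.X i : MvPolynomial ι ℤ)) ≤ 1 := by
  rw [len_C isLen_ml]
  exact ml_X i

lemma pdF_C (i : ι) : Polynomial.C (MvPolynomial.X i : MvPolynomial ι ℤ) ∈ pdF ι 1 := by
  refine ⟨by simp, fun j => ?_⟩
  rw [Polynomial.coeff_C]
  split_ifs
  · show (MvPolynomial.X i : MvPolynomial ι ℤ).totalDegree ≤ 1
    rw [MvPolynomial.totalDegree_X]
  · exact zero_mem _

lemma pdF_X : (Polynomial.X : Polynomial (MvPolynomial ι ℤ)) ∈ pdF ι 1 := by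
  refine ⟨Polynomial.natDegree_X_le, fun j => ?_⟩
  rw [Polynomial.coeff_X]
  split_ifs
  · exact tdF_mono ι 0 1 (by omega) (tdF_one ι)
  · exact zero_mem _

lemma side {κ : Type*} [Fintype κ] (v : κ → Polynomial (MvPolynomial ι ℤ)) (hv : ∀ j, v j ∈ pdF ι 1)
    (hvΛ : ∀ j, len ml (v j) ≤ 2) (D : ℕ) (Q : MvPolynomial κ ℤ) (hQ : Q.totalDegree ≤ D) (H : ℝ) (hH : 0 ≤ H)
    (hQH : ∀ s, |((MvPolynomial.coeff s Q : ℤ) : ℝ)| ≤ H) :
    MvPolynomial.aeval v Q ∈ pdF ι D ∧
      ∀ i, ml ((MvPolynomial.aeval v Q).coeff i) ≤ (((D : ℝ) + 1) ^ (Fintype.card κ) * 2 ^ D) * H := by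
  refine ⟨?_, fun i => ?_⟩
  · have := subst_filt (pdF ι) (pdF_one ι) (pdF_mul ι) (pdF_mono ι) v 1 hv D Q hQ
    rwa [mul_one] at this
  · refine (le_len isLen_ml _ i).trans ?_
    refine (subst_len isLen_ply ply_int v 2 one_le_two hvΛ D Q hQ H hH hQH).trans (le_of_eq ?_)
    ring

/-- evaluation -/
lemma eval_side {κ : Type*} (β : ι → ℝ) (v : κ → Polynomial (MvPolynomial ι ℤ)) (Q : MvPolynomial κ ℤ) (α : ℂ) :
    ((MvPolynomial.aeval v Q).map (evC β)).eval α =
      MvPolynomial.aeval (fun j => ((v j).map (evC β)).eval α) Q := by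
  have h1 := MvPolynomial.comp_aeval v
    (((Polynomial.evalRingHom α).comp (Polynomial.mapRingHom (evC β))).toIntAlgHom)
  exact congrArg (fun F => F Q) h1

lemma norm_aeval_ofReal {κ : Type*} (x : κ → ℝ) (Q : MvPolynomial κ ℤ) :
    ‖MvPolynomial.aeval (fun j => (x j : ℂ)) Q‖ = |MvPolynomial.aeval x Q| := by
  have h1 := MvPolynomial.comp_aeval x (Complex.ofRealHom.toIntAlgHom)
  have h2 : MvPolynomial.aeval (fun j => (x j : ℂ)) Q = ((MvPolynomial.aeval x Q : ℝ) : ℂ) :=
    (congrArg (fun F => F Q) h1).symm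
  rw [h2, Complex.norm_real, Real.norm_eq_abs]

end

lemma natCast_mem_tdF {ι : Type*} (n : ℕ) : ((n : ℕ) : MvPolynomial ι ℤ) ∈ tdF ι 0 := by
  have h1 := tdF_one ι
  have h2 := nsmul_mem h1 n
  rwa [nsmul_one] at h2

/-- a pair `(η, α)` that satisfies a nontrivial relation -/
lemma mem_of_rel {η : ℝ} (hη : Transcendental ℚ η) (α : ℂ) (P : MvPolynomial (Fin 2) ℤ) (hP : P ≠ 0)
    (h : MvPolynomial.aeval ![(η : ℂ), α] P = 0) : α ∈ clC {(η : ℂ)} := by
  by_contra hα
  have hηC : AlgebraicIndependent ℚ (fun _ : Unit => (η : ℂ)) := by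
    apply indepC_ofReal (x := fun _ : Unit => η)
    rw [algebraicIndependent_unique_type_iff]
    exact hη
  have hI : MtC.Indep {(η : ℂ)} := by
    have h1 : MtC.Indep (Set.range fun _ : Unit => (η : ℂ)) := hηC.to_subtype_range
    have h2 : (Set.range fun _ : Unit => (η : ℂ)) = {(η : ℂ)} := by
      ext z; simp
    rwa [h2] at h1
  have h1 : α ∉ MtC.closure {(η : ℂ)} := hα
  rw [hI.notMem_closure_iff (Set.mem_univ _)] at h1
  obtain ⟨h2, h3⟩ := h1
  have hne : α ≠ (η : ℂ) := fun h => h3 (by rw [h]; rfl)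
  have hinj : Function.Injective ![(η : ℂ), α] := by
    intro i j hij
    fin_cases i <;> fin_cases j
    · rfl
    · exact absurd hij.symm hne
    · exact absurd hij hne
    · rfl
  have hrange : Set.range ![(η : ℂ), α] = insert α {(η : ℂ)} := by
    rw [Matrix.range_cons, Matrix.range_cons, Matrix.range_empty, Set.union_empty]
    ext z
    simp only [Set.mem_union, Set.mem_singleton_iff, Set.mem_insert_iff]
    tauto
  have h4 : AlgebraicIndependent ℚ ![(η : ℂ), α] := by
    rw [← hrange] at h2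
    exact (algebraicIndependent_subtype_range hinj).1 h2
  exact aeval_int_ne h4 P hP h

/-- **One number against several, over the field of `η`.** -/
theorem names_e (η : ℝ) {m : ℕ} (θ : Fin m → ℝ) (hβ : MeasI (Fin.cons η θ : Fin (m + 1) → ℝ))
    (hAI : AlgebraicIndependent ℚ (Fin.cons η θ : Fin (m + 1) → ℝ)) (y : ℝ) (D : ℕ) :
    ∃ (κ : ℕ) (c : ℝ), 0 < c ∧ ∀ (P : MvPolynomial (Fin 2) ℤ) (Q : MvPolynomial (Fin (m + 1)) ℤ), P ≠ 0 → Q ≠ 0 →
      P.totalDegree ≤ D → Q.totalDegree ≤ D → ∀ H : ℝ, 1 ≤ H →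
      (∀ s, |((MvPolynomial.coeff s P : ℤ) : ℝ)| ≤ H) → (∀ s, |((MvPolynomial.coeff s Q : ℤ) : ℝ)| ≤ H) →
      c ≤ H ^ κ * max |MvPolynomial.aeval ![η, y] P|
        |MvPolynomial.aeval (Fin.cons η (fun j => y + θ j) : Fin (m + 1) → ℝ) Q| := by
  classical
  set β : Fin (m + 1) → ℝ := Fin.cons η θ with hβdef
  obtain ⟨k, c, hc, hm⟩ := joint0 hβ y D
  obtain ⟨K, hK⟩ : ∃ K : ℝ, K = ((D : ℝ) + 1) ^ (m + 2) * 2 ^ D := ⟨_, rfl⟩
  have hD1 : (1 : ℝ) ≤ (D : ℝ) + 1 := by linarith [show (0 : ℝ) ≤ D by positivity]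
  have hK1 : 1 ≤ K := by
    rw [hK]
    exact one_le_mul_of_one_le_of_one_le (one_le_pow₀ hD1) (one_le_pow₀ (by norm_num))
  refine ⟨k, c / K ^ k, by positivity, ?_⟩
  intro P Q hP hQ hPD hQD H hH hPH hQH
  have hH0 : 0 ≤ H := by linarith
  -- the two polynomials
  let u : Fin 2 → Polynomial (MvPolynomial (Fin (m + 1)) ℤ) := ![Polynomial.C (MvPolynomial.X 0), Polynomial.X]
  let s : Fin (m + 1) → ℕ := Fin.cons 0 (fun _ => 1)
  let v : Fin (m + 1) → Polynomial (MvPolynomial (Fin (m + 1)) ℤ) := fun j =>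
    Polynomial.C (MvPolynomial.X j) + (s j : Polynomial (MvPolynomial (Fin (m + 1)) ℤ)) * Polynomial.X
  have hs : ∀ j, s j ≤ 1 := by
    intro j
    refine Fin.cases ?_ (fun i => ?_) j
    · exact Nat.zero_le _
    · exact le_rfl
  have hu1 : ∀ j, u j ∈ pdF (Fin (m + 1)) 1 := by
    intro j
    fin_cases j
    · exact pdF_C 0
    · exact pdF_X
  have hu2 : ∀ j, len ml (u j) ≤ 2 := by
    intro j
    fin_cases j
    · exact (ply_C 0).trans one_le_two
    · exact ply_X.trans one_le_two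
  have hv1 : ∀ j, v j ∈ pdF (Fin (m + 1)) 1 := by
    intro j
    refine add_mem (pdF_C j) ?_
    rw [← nsmul_eq_mul]
    exact nsmul_mem pdF_X _
  have hv2 : ∀ j, len ml (v j) ≤ 2 := by
    intro j
    refine (isLen_ply.add _ _).trans ?_
    have h1 := ply_C (ι := Fin (m + 1)) j
    have h2 : len (ml : MvPolynomial (Fin (m + 1)) ℤ → ℝ)
        ((s j : Polynomial (MvPolynomial (Fin (m + 1)) ℤ)) * Polynomial.X) ≤ 1 := by
      refine (isLen_ply.mul _ _).trans ?_
      have h3 := ply_int (ι := Fin (m + 1)) (s j : ℤ)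
      have h4 : |(((s j : ℕ) : ℤ) : ℝ)| ≤ 1 := by
        rw [Int.cast_natCast, Nat.abs_cast]
        exact_mod_cast hs j
      have h5 : len (ml : MvPolynomial (Fin (m + 1)) ℤ → ℝ) (s j : Polynomial (MvPolynomial (Fin (m + 1)) ℤ)) ≤ 1 := by
        have h6 : ((s j : ℤ) : Polynomial (MvPolynomial (Fin (m + 1)) ℤ)) =
            (s j : Polynomial (MvPolynomial (Fin (m + 1)) ℤ)) := by push_cast; rfl
        rw [h6] at h3
        exact h3.trans h4
      exact mul_le_one₀ h5 (isLen_ply.nonneg _) ply_X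
    linarith
  obtain ⟨hp1, hp2⟩ := side u hu1 hu2 D P hPD H hH0 hPH
  obtain ⟨hq1, hq2⟩ := side v hv1 hv2 D Q hQD H hH0 hQH
  set p := MvPolynomial.aeval u P with hp
  set q := MvPolynomial.aeval v Q with hq
  have hKH : 1 ≤ K * H := one_le_mul_of_one_le_of_one_le hK1 hH
  have hp0 : p ≠ 0 := by
    intro h0
    apply hP
    let ψ : Polynomial (MvPolynomial (Fin (m + 1)) ℤ) →+* MvPolynomial (Fin 2) ℤ :=
      Polynomial.eval₂RingHom (MvPolynomial.aeval (fun _ => (MvPolynomial.X 0 : MvPolynomial (Fin 2) ℤ)) :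
        MvPolynomial (Fin (m + 1)) ℤ →ₐ[ℤ] MvPolynomial (Fin 2) ℤ).toRingHom (MvPolynomial.X 1)
    have h1 := MvPolynomial.comp_aeval u ψ.toIntAlgHom
    have h2 : ψ p = MvPolynomial.aeval (fun i => ψ (u i)) P := congrArg (fun F => F P) h1
    have h3 : (fun i => ψ (u i)) = MvPolynomial.X := by
      funext i
      fin_cases i
      · show ψ (Polynomial.C (MvPolynomial.X 0)) = _
        simp [ψ]
      · show ψ Polynomial.X = _
        simp [ψ]
    rw [h3, MvPolynomial.aeval_X_left_apply, h0, map_zero] at h2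
    exact h2.symm
  have hevu : ∀ α : ℂ, (fun j => ((u j).map (evC β)).eval α) = ![(η : ℂ), α] := by
    intro α
    funext j
    fin_cases j
    · show ((Polynomial.C (MvPolynomial.X 0)).map (evC β)).eval α = _
      rw [Polynomial.map_C, Polynomial.eval_C, evC_apply, MvPolynomial.aeval_X]
      rfl
    · show ((Polynomial.X : Polynomial (MvPolynomial (Fin (m + 1)) ℤ)).map (evC β)).eval α = _
      rw [Polynomial.map_X, Polynomial.eval_X]
      rfl
  have hevv : ∀ α : ℂ, (fun j => ((v j).map (evC β)).eval α) =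
      (Fin.cons (η : ℂ) (fun j => α + (θ j : ℂ)) : Fin (m + 1) → ℂ) := by
    intro α
    funext j
    show ((Polynomial.C (MvPolynomial.X j) + (s j : Polynomial (MvPolynomial (Fin (m + 1)) ℤ)) *
      Polynomial.X).map (evC β)).eval α = _
    rw [Polynomial.map_add, Polynomial.eval_add, Polynomial.map_C, Polynomial.eval_C, evC_apply, MvPolynomial.aeval_X,
      Polynomial.map_mul, Polynomial.eval_mul, Polynomial.map_X, Polynomial.eval_X, Polynomial.map_natCast,
      Polynomial.eval_natCast]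
    refine Fin.cases ?_ (fun i => ?_) j
    · simp [s, hβdef]
    · simp [s, hβdef]
      ring
  have hη : Transcendental ℚ η := hAI.transcendental 0
  have hcop : ∀ α : ℂ, (p.map (evC β)).eval α = 0 → (q.map (evC β)).eval α ≠ 0 := by
    intro α hα
    rw [hp, eval_side, hevu α] at hα
    rw [hq, eval_side, hevv α]
    have h1 := mem_of_rel hη α P hP hα
    have h2 : AlgebraicIndependent ℚ (Sum.elim (fun _ : Fin 1 => η) θ) := by
      have h3 := hAI.comp (Sum.elim (fun _ : Fin 1 => (0 : Fin (m + 1))) Fin.succ) (by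
        intro x x' h
        rcases x with x | x <;> rcases x' with x' | x'
        · rw [Subsingleton.elim x x']
        · exact absurd h (Fin.succ_ne_zero _).symm
        · exact absurd h (Fin.succ_ne_zero _)
        · simp only [Sum.elim_inr] at h
          rw [Fin.succ_injective _ h])
      convert h3 using 1
      funext x
      rcases x with x | x <;> rfl
    have h3 := shift_indep (fun _ : Fin 1 => η) θ h2 α (by
      have : (Set.range fun r : Fin 1 => (η : ℂ)) = {(η : ℂ)} := by ext z; simp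
      rw [this]
      exact h1)
    -- back to `Fin (m + 1)`
    have h5 : AlgebraicIndependent ℚ (Fin.cons (η : ℂ) (fun j => α + (θ j : ℂ)) : Fin (m + 1) → ℂ) := by
      let e : Fin (m + 1) → Fin 1 ⊕ Fin m := Fin.cons (Sum.inl 0) (fun j => Sum.inr j)
      have he : Function.Injective e := by
        intro x x' h
        revert h
        refine Fin.cases ?_ (fun i => ?_) x
        · refine Fin.cases ?_ (fun i' => ?_) x'
          · intro _; rfl
          · intro h
            exact absurd h (by simp [e])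
        · refine Fin.cases ?_ (fun i' => ?_) x'
          · intro h
            exact absurd h (by simp [e])
          · intro h
            simp only [e, Fin.cons_succ, Sum.inr.injEq] at h
            rw [h]
      have h6 := h3.comp e he
      convert h6 using 1
      funext x
      refine Fin.cases ?_ (fun i => ?_) x
      · simp [e]
      · simp [e]
    exact aeval_int_ne h5 Q hQ
  have hKle : ∀ n : ℕ, n ≤ m + 2 → (((D : ℝ) + 1) ^ n * 2 ^ D) * H ≤ K * H := by
    intro n hn
    rw [hK]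
    refine mul_le_mul_of_nonneg_right ?_ hH0
    exact mul_le_mul_of_nonneg_right (pow_le_pow_right₀ hD1 hn) (by positivity)
  have key := hm p q hp0 hp1 hq1 (K * H) hKH
    (fun i => (hp2 i).trans (hKle _ (by rw [Fintype.card_fin]; omega)))
    (fun i => (hq2 i).trans (hKle _ (by rw [Fintype.card_fin]; omega))) hcop
  have e1 : ‖(p.map (evC β)).eval (y : ℂ)‖ = |MvPolynomial.aeval ![η, y] P| := by
    rw [hp, eval_side, hevu, ← norm_aeval_ofReal]
    congr 2
    congr 1
    funext j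
    fin_cases j <;> rfl
  have e2 : ‖(q.map (evC β)).eval (y : ℂ)‖ =
      |MvPolynomial.aeval (Fin.cons η (fun j => y + θ j) : Fin (m + 1) → ℝ) Q| := by
    rw [hq, eval_side, hevv, ← norm_aeval_ofReal]
    congr 2
    congr 1
    funext j
    refine Fin.cases ?_ (fun i => ?_) j
    · rfl
    · simp
  rw [e1, e2] at key
  rw [div_le_iff₀ (by positivity)]
  calc c ≤ (K * H) ^ k * _ := key
    _ = _ := by rw [mul_pow]; ring

end Pool.Agent.Helper116_EM
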