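import Pool.Agent.Helper116_EM.Base

/-!
# One number against several, over the rationals (helper116)
-/

set_option autoImplicit false
set_option linter.unusedSectionVars false

open Finset

namespace Pool.Agent.Helper116_EM

open Pool.Agent.R356 (IsLen det_filt sylv_entry len len_C le_len)

/-- **One number against several, over the rationals.** -/
theorem names_free {ι : Type} [Fintype ι] (θ : ι → ℝ) (hβ : MeasI θ) (hAI : AlgebraicIndependent ℚ θ) (y : ℝ)
    (D : ℕ) :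
    ∃ (κ : ℕ) (c : ℝ), 0 < c ∧ ∀ (P : Polynomial ℤ) (Q : MvPolynomial ι ℤ), P ≠ 0 → Q ≠ 0 →
      P.natDegree ≤ D → Q.totalDegree ≤ D → ∀ H : ℝ, 1 ≤ H →
      (∀ i, |((P.coeff i : ℤ) : ℝ)| ≤ H) → (∀ s, |((MvPolynomial.coeff s Q : ℤ) : ℝ)| ≤ H) →
      c ≤ H ^ κ * max |Polynomial.aeval y P| |MvPolynomial.aeval (fun j => y + θ j) Q| := by
  classical
  obtain ⟨k, c, hc, hm⟩ := joint0 hβ y D
  obtain ⟨K, hK⟩ : ∃ K : ℝ, K = ((D : ℝ) + 1) ^ (Fintype.card ι) * 2 ^ D := ⟨_, rfl⟩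
  have hD1 : (1 : ℝ) ≤ (D : ℝ) + 1 := by linarith [show (0 : ℝ) ≤ D by positivity]
  have hK1 : 1 ≤ K := by
    rw [hK]
    exact one_le_mul_of_one_le_of_one_le (one_le_pow₀ hD1) (one_le_pow₀ (by norm_num))
  refine ⟨k, c / K ^ k, by positivity, ?_⟩
  intro P Q hP hQ hPD hQD H hH hPH hQH
  have hH0 : 0 ≤ H := by linarith
  let v : ι → Polynomial (MvPolynomial ι ℤ) := fun j => Polynomial.C (MvPolynomial.X j) + Polynomial.X
  have hv1 : ∀ j, v j ∈ pdF ι 1 := fun j => add_mem (pdF_C j) pdF_X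
  have hv2 : ∀ j, len ml (v j) ≤ 2 := by
    intro j
    refine (isLen_ply.add _ _).trans ?_
    have h1 := ply_C (ι := ι) j
    have h2 := ply_X (ι := ι)
    linarith
  obtain ⟨hq1, hq2⟩ := side v hv1 hv2 D Q hQD H hH0 hQH
  set q := MvPolynomial.aeval v Q with hq
  have hKH : 1 ≤ K * H := one_le_mul_of_one_le_of_one_le hK1 hH
  have hHKH : H ≤ K * H := le_mul_of_one_le_left hH0 hK1
  set p : Polynomial (MvPolynomial ι ℤ) := P.map (Int.castRingHom _) with hp
  have hinj : Function.Injective (Int.castRingHom (MvPolynomial ι ℤ)) := Int.cast_injective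
  have hp0 : p ≠ 0 := (Polynomial.map_ne_zero_iff hinj).2 hP
  have hpc : ∀ i, p.coeff i = ((P.coeff i : ℤ) : MvPolynomial ι ℤ) := fun i => by
    rw [hp, Polynomial.coeff_map]; rfl
  have hp1 : p ∈ pdF ι D := by
    refine ⟨Polynomial.natDegree_map_le.trans hPD, fun i => ?_⟩
    rw [hpc]
    have h1 := zsmul_mem (tdF_mono ι 0 D (Nat.zero_le _) (tdF_one ι)) (P.coeff i)
    rwa [zsmul_one] at h1
  have hp2 : ∀ i, ml (p.coeff i) ≤ H := fun i => by
    rw [hpc]
    exact (ml_int _).trans (hPH i)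
  have hpev : p.map (evC θ) = P.map (Int.castRingHom ℂ) := by
    rw [hp, Polynomial.map_map]
    congr 1
    exact RingHom.ext_int _ _
  have hevv : ∀ α : ℂ, (fun j => ((v j).map (evC θ)).eval α) = fun j => α + (θ j : ℂ) := by
    intro α
    funext j
    show ((Polynomial.C (MvPolynomial.X j) + Polynomial.X).map (evC θ)).eval α = _
    rw [Polynomial.map_add, Polynomial.eval_add, Polynomial.map_C, Polynomial.eval_C, evC_apply, MvPolynomial.aeval_X,
      Polynomial.map_X, Polynomial.eval_X, add_comm]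
  have hcop : ∀ α : ℂ, (p.map (evC θ)).eval α = 0 → (q.map (evC θ)).eval α ≠ 0 := by
    intro α hα
    rw [hpev, Polynomial.eval_map] at hα
    rw [hq, eval_side, hevv α]
    have h1 : α ∈ clC (Set.range fun r : Fin 0 => (((fun _ => 0 : Fin 0 → ℝ) r : ℝ) : ℂ)) := by
      show α ∈ MtC.closure _
      rw [mem_clC_iff]
      have h2 : IsAlgebraic ℤ α := ⟨P, hP, by
        rw [Polynomial.aeval_def]
        exact hα⟩
      have h3 : IsAlgebraic ℚ α := (IsFractionRing.isAlgebraic_iff ℤ ℚ ℂ).1 h2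
      exact h3.extendScalars (FaithfulSMul.algebraMap_injective ℚ
        (Algebra.adjoin ℚ (Set.range fun r : Fin 0 => (((fun _ => 0 : Fin 0 → ℝ) r : ℝ) : ℂ))))
    have h2 : AlgebraicIndependent ℚ (Sum.elim (fun _ => 0 : Fin 0 → ℝ) θ) := by
      have h3 := hAI.comp (fun x : Fin 0 ⊕ ι => Sum.elim (fun r : Fin 0 => r.elim0) id x) (by
        intro x x' h
        rcases x with x | x
        · exact x.elim0
        · rcases x' with x' | x'
          · exact x'.elim0
          · simp only [Sum.elim_inr, id] at h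
            rw [h])
      convert h3 using 1
      funext x
      rcases x with x | x
      · exact x.elim0
      · rfl
    have h3 := shift_indep (fun _ => 0 : Fin 0 → ℝ) θ h2 α h1
    have h4 := h3.comp Sum.inr Sum.inr_injective
    exact aeval_int_ne h4 Q hQ
  have key := hm p q hp0 hp1 hq1 (K * H) hKH (fun i => (hp2 i).trans hHKH) (fun i => (hq2 i).trans (by rw [hK])) hcop
  have e1 : ‖(p.map (evC θ)).eval (y : ℂ)‖ = |Polynomial.aeval y P| := by
    rw [hpev, Polynomial.eval_map]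
    have h4 : Polynomial.eval₂ (Int.castRingHom ℂ) (y : ℂ) P = ((Polynomial.aeval y P : ℝ) : ℂ) := by
      rw [Polynomial.aeval_def, show ((Polynomial.eval₂ (algebraMap ℤ ℝ) y P : ℝ) : ℂ) =
        Complex.ofRealHom (Polynomial.eval₂ (algebraMap ℤ ℝ) y P) from rfl, Polynomial.hom_eval₂]
      congr 1
    rw [h4, Complex.norm_real, Real.norm_eq_abs]
  have e2 : ‖(q.map (evC θ)).eval (y : ℂ)‖ = |MvPolynomial.aeval (fun j => y + θ j) Q| := by
    rw [hq, eval_side, hevv, ← norm_aeval_ofReal]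
    congr 2
    congr 1
    funext j
    push_cast
    rfl
  rw [e1, e2] at key
  rw [div_le_iff₀ (by positivity)]
  calc c ≤ (K * H) ^ k * _ := key
    _ = _ := by rw [mul_pow]; ring

/-- differences of the offsets of names -/
theorem names_indep0 {A : Type*} (o : A) (c : A → ℝ) (hco : c o = 0)
    (hAI : AlgebraicIndependent ℚ (fun z : {b : A // b ≠ o} => c z)) {m : ℕ}
    (a : Fin (m + 1) → A) (ha : Function.Injective a) :
    AlgebraicIndependent ℚ (fun j : Fin m => c (a 0) - c (a j.succ)) := by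
  classical
  set F : Finset A := insert o (Finset.univ.image a) with hF
  have hoF : o ∈ F := Finset.mem_insert_self _ _
  have haF : ∀ j, a j ∈ F := fun j => Finset.mem_insert_of_mem (Finset.mem_image_of_mem _ (Finset.mem_univ _))
  let y : (F.erase (a 0)) → ℝ := fun b => c (a 0) - c b
  let x : (F.erase o) → ℝ := fun b => c b
  have hx : AlgebraicIndependent ℚ x := by
    let f : (F.erase o) → {b : A // b ≠ o} := fun b => ⟨b.1, (Finset.mem_erase.1 b.2).1⟩
    have hf : Function.Injective f := by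
      intro b b' hbb
      exact Subtype.ext (congrArg (fun z : {b : A // b ≠ o} => (z : A)) hbb)
    exact hAI.comp f hf
  have hy : AlgebraicIndependent ℚ y := by
    refine Pool.Agent.R352.E.indep_of_span hx (fun b => ?_) ?_
    · set T := Set.range y with hT
      have hdiff : ∀ b ∈ F, c (a 0) - c b ∈ Pool.Agent.R352.E.clF T := by
        intro b hb
        by_cases hba : b = a 0
        · rw [hba, sub_self]; exact (Pool.Agent.R352.E.clF T).zero_mem
        · exact Pool.Agent.R352.E.subset_clF T ⟨⟨b, Finset.mem_erase.2 ⟨hba, hb⟩⟩, rfl⟩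
      have h0 : c (a 0) ∈ Pool.Agent.R352.E.clF T := by
        have := hdiff o hoF
        rwa [hco, sub_zero] at this
      have h1 := (Pool.Agent.R352.E.clF T).sub_mem h0 (hdiff b.1 (Finset.mem_erase.1 b.2).2)
      rw [sub_sub_cancel] at h1
      exact h1
    · rw [Fintype.card_coe, Fintype.card_coe, Finset.card_erase_of_mem (haF 0), Finset.card_erase_of_mem hoF]
  let f : Fin m → (F.erase (a 0)) := fun j => ⟨a j.succ, Finset.mem_erase.2
    ⟨fun h => Fin.succ_ne_zero j (ha h), haF _⟩⟩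
  have hf : Function.Injective f := by
    intro i i' h
    simp only [f, Subtype.mk.injEq] at h
    exact Fin.succ_injective _ (ha h)
  exact hy.comp f hf

/-- measures for algebraically independent numbers, with a denominator -/
theorem meas_gen' {κ : Type*} [Fintype κ] (J : ℕ) (S : Finset (ℚ × ℚ)) (hS : ∀ p ∈ S, 0 ≤ p.1 ∧ p.1 < 1 ∧ 0 < p.2)
    (N : ℕ) (hN : N ≠ 0) (θ : κ → ℝ) (hAI : AlgebraicIndependent ℚ θ)
    (h : ∀ (B : Subalgebra ℤ ℝ) (g : ℝ), g ∈ B → Real.exp 1 * g ∈ B → (∀ p ∈ S, Real.exp (-(p.2 : ℝ)) ∈ B) →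
      (∀ p ∈ S, ∀ l, 1 ≤ l → l ≤ J → Pool.Agent.R352.T.EA p.1 l p.2 ∈ B) → ∀ j, θ j * (N * g) ∈ B) : MeasI θ := by
  obtain ⟨ι, β, g, hβ, hg0, hg, heg, hexp, hEA⟩ := tower_points J S hS
  refine hβ.subst' θ hAI (N * g) (mul_ne_zero (by exact_mod_cast hN) hg0) ?_ (h (Rg β) g hg heg hexp hEA)
  exact (Rg β).mul_mem (natCast_mem _ N) hg

/-- the numbers `y - c(b)`, one against several -/
theorem names_main {A : Type*} (o : A) (c : A → ℝ) (hco : c o = 0)
    (hAI : AlgebraicIndependent ℚ (fun z : {b : A // b ≠ o} => c z)) (y : ℝ) (J : ℕ) {m : ℕ}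
    (a : Fin (m + 1) → A) (ha : Function.Injective a) (S : Finset (ℚ × ℚ))
    (hS : ∀ p ∈ S, 0 ≤ p.1 ∧ p.1 < 1 ∧ 0 < p.2) (N : ℕ) (hN : N ≠ 0)
    (h : ∀ (B : Subalgebra ℤ ℝ) (g : ℝ), g ∈ B → Real.exp 1 * g ∈ B → (∀ p ∈ S, Real.exp (-(p.2 : ℝ)) ∈ B) →
      (∀ p ∈ S, ∀ l, 1 ≤ l → l ≤ J → Pool.Agent.R352.T.EA p.1 l p.2 ∈ B) → ∀ j, c (a j) * (N * g) ∈ B) (D : ℕ) :
    ∃ (κ : ℕ) (C : ℝ), 0 < C ∧ ∀ (P : Polynomial ℤ) (Q : MvPolynomial (Fin m) ℤ), P ≠ 0 → Q ≠ 0 →
      P.natDegree ≤ D → Q.totalDegree ≤ D → ∀ H : ℝ, 1 ≤ H →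
      (∀ i, |((P.coeff i : ℤ) : ℝ)| ≤ H) → (∀ s, |((MvPolynomial.coeff s Q : ℤ) : ℝ)| ≤ H) →
      C ≤ H ^ κ * max |Polynomial.aeval (y - c (a 0)) P|
        |MvPolynomial.aeval (fun j : Fin m => y - c (a j.succ)) Q| := by
  have hAI' := names_indep0 o c hco hAI a ha
  have hM : MeasI (fun j : Fin m => c (a 0) - c (a j.succ)) := by
    refine meas_gen' J S hS N hN _ hAI' fun B g hg heg hexp hE j => ?_
    have h1 := h B g hg heg hexp hE
    rw [sub_mul]
    exact B.sub_mem (h1 0) (h1 j.succ)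
  obtain ⟨κ, C, hC, hm⟩ := names_free _ hM hAI' (y - c (a 0)) D
  refine ⟨κ, C, hC, fun P Q hP hQ hPD hQD H hH hPH hQH => ?_⟩
  have h1 := hm P Q hP hQ hPD hQD H hH hPH hQH
  have h2 : (fun j : Fin m => y - c (a 0) + (c (a 0) - c (a j.succ))) = fun j : Fin m => y - c (a j.succ) := by
    funext j
    ring
  rw [h2] at h1
  exact h1

end Pool.Agent.Helper116_EM
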