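import Pool.Agent.Helper116_EM.NamesFree

/-!
# `π + e`, `π - e` and the tails of the Gaussian integral over the plane (helper116)
-/

set_option autoImplicit false

open Finset MeasureTheory

namespace Pool.Agent.Helper116_EM

open Pool.Agent.R352.T (EA EB EA_eq EA_deriv EA_zero_left EA_alg_Q PI)
open Pool.Agent.R352.E (clF subset_clF indep_of_span of_pow rat_mem)

/-- the Gaussian integral over an interval -/
lemma gauss_eq (s : ℝ) : ∫ t in (-s)..s, Real.exp (-t ^ 2) = s * (2 - EA (1 / 2) 1 (s ^ 2)) := by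
  set F : ℝ → ℝ := fun s => s * (2 - EA (1 / 2) 1 (s ^ 2)) / 2 with hF
  have hd : ∀ s : ℝ, HasDerivAt F (Real.exp (-s ^ 2)) s := by
    intro s
    have h1 : HasDerivAt (fun s : ℝ => s ^ 2) (2 * s) s := by simpa using hasDerivAt_pow 2 s
    have h2 := EA_deriv (a := (1 / 2 : ℝ)) (by norm_num) 0 (s ^ 2)
    have h3 : HasDerivAt (fun s : ℝ => EA (1 / 2) (0 + 1) (s ^ 2))
        ((EB (1 / 2) 0 (s ^ 2) - 1 / 2 * EB (1 / 2) (0 + 1) (s ^ 2)) * (2 * s)) s :=
      HasDerivAt.comp (h := fun s : ℝ => s ^ 2) s h2 h1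
    have h4 := ((hasDerivAt_id s).mul (h3.const_sub 2)).div_const 2
    refine h4.congr_deriv ?_
    have h5 := EA_eq (a := (1 / 2 : ℝ)) 1 (s ^ 2)
    have h6 := EA_eq (a := (1 / 2 : ℝ)) 0 (s ^ 2)
    rw [EA_zero_left] at h6
    simp only [id, zero_add]
    rw [h5]
    have h7 : Real.exp (-s ^ 2) = 1 - s ^ 2 * EB (1 / 2) 0 (s ^ 2) := by linarith
    rw [h7]
    ring
  rw [intervalIntegral.integral_eq_sub_of_hasDerivAt (fun t _ => hd t)
    ((Real.continuous_exp.comp (continuous_pow 2).neg).intervalIntegrable _ _)]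
  simp only [hF]
  have : (-s) ^ 2 = s ^ 2 := by ring
  rw [this]
  ring

/-- `∫∫_{max(s², t²) ≥ x} exp(-s² - t²) ds dt` -/
noncomputable def TT (x : ℝ) : ℝ :=
  ∫ p in {p : ℝ × ℝ | x ≤ p.1 ^ 2 ∨ x ≤ p.2 ^ 2}, Real.exp (-(p.1 ^ 2 + p.2 ^ 2))

lemma gauss_int : Integrable (fun t : ℝ => Real.exp (-t ^ 2)) := by
  have := integrable_exp_neg_mul_sq (b := (1 : ℝ)) one_pos
  simpa using this

lemma TT_eq {x : ℝ} (hx : 0 < x) : TT x = Real.pi - x * (2 - EA (1 / 2) 1 x) ^ 2 := by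
  set s : ℝ := Real.sqrt x with hs
  have hs0 : 0 < s := Real.sqrt_pos.2 hx
  have hs2 : s ^ 2 = x := Real.sq_sqrt hx.le
  have hfun : (fun p : ℝ × ℝ => Real.exp (-(p.1 ^ 2 + p.2 ^ 2))) =
      fun p : ℝ × ℝ => Real.exp (-p.1 ^ 2) * Real.exp (-p.2 ^ 2) := by
    funext p
    rw [← Real.exp_add]; congr 1; ring
  have hint : Integrable (fun p : ℝ × ℝ => Real.exp (-(p.1 ^ 2 + p.2 ^ 2))) := by
    rw [hfun]
    exact gauss_int.mul_prod gauss_int
  have hset : {p : ℝ × ℝ | x ≤ p.1 ^ 2 ∨ x ≤ p.2 ^ 2} = (Set.Ioo (-s) s ×ˢ Set.Ioo (-s) s)ᶜ := by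
    ext p
    have key : ∀ t : ℝ, t ∈ Set.Ioo (-s) s ↔ ¬ x ≤ t ^ 2 := by
      intro t
      rw [not_le, ← hs2, Set.mem_Ioo, ← abs_lt, sq_lt_sq, abs_of_pos hs0]
    rw [Set.mem_compl_iff, Set.mem_prod, key, key]
    show (x ≤ p.1 ^ 2 ∨ x ≤ p.2 ^ 2) ↔ _
    tauto
  have hmeas : MeasurableSet (Set.Ioo (-s) s ×ˢ Set.Ioo (-s) s : Set (ℝ × ℝ)) :=
    measurableSet_Ioo.prod measurableSet_Ioo
  have h1 := integral_add_compl hmeas hint
  have h2 : ∫ p : ℝ × ℝ, Real.exp (-(p.1 ^ 2 + p.2 ^ 2)) = Real.pi := by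
    rw [hfun, Measure.volume_eq_prod, integral_prod_mul (fun t : ℝ => Real.exp (-t ^ 2)) (fun t : ℝ => Real.exp (-t ^ 2))]
    have h3 := integral_gaussian 1
    simp only [neg_mul, one_mul, div_one] at h3
    rw [h3, Real.mul_self_sqrt Real.pi_pos.le]
  have h3 : ∫ p in (Set.Ioo (-s) s ×ˢ Set.Ioo (-s) s : Set (ℝ × ℝ)), Real.exp (-(p.1 ^ 2 + p.2 ^ 2)) =
      x * (2 - EA (1 / 2) 1 x) ^ 2 := by
    rw [hfun, Measure.volume_eq_prod,
      setIntegral_prod_mul (fun t : ℝ => Real.exp (-t ^ 2)) (fun t : ℝ => Real.exp (-t ^ 2)),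
      ← integral_Ioc_eq_integral_Ioo, ← intervalIntegral.integral_of_le (by linarith), gauss_eq, hs2]
    rw [← hs2]
    ring
  rw [TT, hset]
  linarith

/-- names: `inl true` for `π + e`, `inl false` for `π - e`, `inr x` for `T(x)` -/
abbrev NP : Type := Bool ⊕ {x : ℚ // 0 < x}

/-- the offsets -/
noncomputable def offP : NP → ℝ
  | Sum.inl true => 0
  | Sum.inl false => 2 * Real.exp 1
  | Sum.inr x => Real.exp 1 + (x : ℚ) * (2 - EA (1 / 2) 1 (x : ℚ)) ^ 2

/-- the numbers -/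
noncomputable def numP : NP → ℝ
  | Sum.inl true => Real.pi + Real.exp 1
  | Sum.inl false => Real.pi - Real.exp 1
  | Sum.inr x => TT (x : ℚ)

lemma numP_eq (z : NP) : numP z = Real.pi + Real.exp 1 - offP z := by
  rcases z with (_ | _) | x
  · simp only [numP, offP]; ring
  · simp only [numP, offP]; ring
  · have hx : (0 : ℝ) < (x : ℚ) := by exact_mod_cast x.2
    simp only [numP, offP]
    rw [TT_eq hx]; ring

/-- the underlying independent numbers -/
noncomputable def basP : NP → ℝ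
  | Sum.inl _ => Real.exp 1
  | Sum.inr x => EA (1 / 2) 1 (x : ℚ)

lemma basP_indep : AlgebraicIndependent ℚ (fun z : {b : NP // b ≠ Sum.inl true} => basP z) := by
  let f : {b : NP // b ≠ Sum.inl true} → Option PI := fun z =>
    match z with
    | ⟨Sum.inl _, _⟩ => none
    | ⟨Sum.inr x, _⟩ => some ⟨(0, 1 / 2, x.1), by norm_num, by norm_num, x.2⟩
  have hf : Function.Injective f := by
    rintro ⟨(_ | _) | x, hx⟩ ⟨(_ | _) | x', hx'⟩ h
    · rfl
    · exact absurd rfl hx'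
    · exact absurd h (by simp [f])
    · exact absurd rfl hx
    · exact absurd rfl hx
    · exact absurd rfl hx
    · exact absurd h (by simp [f])
    · exact absurd rfl hx'
    · simp only [f, Option.some.injEq, Subtype.mk.injEq, Prod.mk.injEq, true_and] at h
      have h2 : x = x' := Subtype.ext h
      subst h2
      rfl
  have h2 := EA_alg_Q.comp f hf
  convert h2 using 1
  funext z
  rcases z with ⟨(_ | _) | x, hx⟩
  · rfl
  · exact absurd rfl hx
  · simp [f, basP]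

lemma offP_indep : AlgebraicIndependent ℚ (fun z : {b : NP // b ≠ Sum.inl true} => offP z) := by
  classical
  refine algebraicIndependent_of_finite_type fun t ht => ?_
  let z₀ : {b : NP // b ≠ Sum.inl true} := ⟨Sum.inl false, by simp⟩
  set t' : Set {b : NP // b ≠ Sum.inl true} := insert z₀ t with ht'
  have hfin : t'.Finite := ht.insert z₀
  letI : Fintype t' := hfin.fintype
  have hx : AlgebraicIndependent ℚ (fun z : t' => basP (z : {b : NP // b ≠ Sum.inl true})) :=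
    basP_indep.comp _ Subtype.val_injective
  have hy : AlgebraicIndependent ℚ (fun z : t' => offP (z : {b : NP // b ≠ Sum.inl true})) := by
    refine indep_of_span hx (fun z => ?_) le_rfl
    set T := Set.range (fun z : t' => offP (z : {b : NP // b ≠ Sum.inl true})) with hT
    have he2 : (2 * Real.exp 1 : ℝ) ∈ clF T := subset_clF T ⟨⟨z₀, Set.mem_insert _ _⟩, rfl⟩
    have he : Real.exp 1 ∈ clF T := by
      have h2 : (2 : ℝ) ∈ clF T := by exact_mod_cast rat_mem T 2
      have h3 := (clF T).div_mem he2 h2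
      rwa [mul_div_cancel_left₀ _ (two_ne_zero)] at h3
    obtain ⟨⟨b, hb⟩, hzt⟩ := z
    rcases b with (_ | _) | x
    · exact he
    · exact absurd rfl hb
    · have hx0 : (0 : ℝ) < (x : ℚ) := by exact_mod_cast x.2
      have h1 : Real.exp 1 + (x : ℚ) * (2 - EA (1 / 2) 1 (x : ℚ)) ^ 2 ∈ clF T := subset_clF T ⟨⟨⟨Sum.inr x, hb⟩, hzt⟩, rfl⟩
      have h2 := (clF T).sub_mem h1 he
      rw [add_sub_cancel_left] at h2
      have h3 := (clF T).div_mem h2 (rat_mem T x)
      rw [mul_div_cancel_left₀ _ hx0.ne'] at h3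
      have h4 := of_pow two_ne_zero h3
      have h5 : (2 : ℝ) ∈ clF T := by exact_mod_cast rat_mem T 2
      have h6 := (clF T).sub_mem h5 h4
      rw [sub_sub_cancel] at h6
      exact h6
  exact hy.comp (Set.inclusion (Set.subset_insert z₀ t)) (Set.inclusion_injective _)

/-- **One name against several** -/
theorem pi_names {m : ℕ} (a : Fin (m + 1) → NP) (ha : Function.Injective a) (D : ℕ) :
    ∃ (κ : ℕ) (C : ℝ), 0 < C ∧ ∀ (P : Polynomial ℤ) (Q : MvPolynomial (Fin m) ℤ), P ≠ 0 → Q ≠ 0 →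
      P.natDegree ≤ D → Q.totalDegree ≤ D → ∀ H : ℝ, 1 ≤ H →
      (∀ i, |((P.coeff i : ℤ) : ℝ)| ≤ H) → (∀ s, |((MvPolynomial.coeff s Q : ℤ) : ℝ)| ≤ H) →
      C ≤ H ^ κ * max |Polynomial.aeval (numP (a 0)) P|
        |MvPolynomial.aeval (fun j : Fin m => numP (a j.succ)) Q| := by
  classical
  let X : Fin (m + 1) → ℚ := fun j => Sum.elim (fun _ => 1) (fun x : {x : ℚ // 0 < x} => x.1) (a j)
  let S : Finset (ℚ × ℚ) := Finset.univ.image fun j => ((1 / 2 : ℚ), X j)
  have hXpos : ∀ j, 0 < X j := by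
    intro j
    show 0 < Sum.elim (fun _ => (1 : ℚ)) (fun x : {x : ℚ // 0 < x} => x.1) (a j)
    rcases a j with b | x
    · exact one_pos
    · exact x.2
  have hS : ∀ p ∈ S, 0 ≤ p.1 ∧ p.1 < 1 ∧ 0 < p.2 := by
    intro p hp
    obtain ⟨j, _, rfl⟩ := Finset.mem_image.1 hp
    exact ⟨by norm_num, by norm_num, hXpos j⟩
  set N : ℕ := ∏ j, (X j).den with hN
  have hN0 : N ≠ 0 := Finset.prod_ne_zero_iff.2 fun j _ => (X j).den_ne_zero
  have h := names_main (Sum.inl true : NP) offP rfl offP_indep (Real.pi + Real.exp 1) 1 a ha S hS N hN0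
    (fun B g hg heg hexp hE j => by
      have h1 : EA (1 / 2) 1 (X j) ∈ B := by
        have := hE ((1 / 2 : ℚ), X j) (Finset.mem_image_of_mem _ (Finset.mem_univ j)) 1 le_rfl le_rfl
        push_cast at this
        exact this
      have hNX : ((N : ℝ) * (X j : ℝ)) ∈ B := by
        obtain ⟨d, hd⟩ := Finset.dvd_prod_of_mem (fun j => (X j).den) (Finset.mem_univ j)
        have h2 : (N : ℚ) * X j = ((d * (X j).num : ℤ) : ℚ) := by
          have h3 : (N : ℚ) = ((X j).den : ℚ) * d := by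
            rw [hN, hd]; push_cast; rfl
          have h4 : X j * (X j).den = (X j).num := Rat.mul_den_eq_num (X j)
          push_cast
          rw [h3, ← h4]
          ring
        have h5 : (N : ℝ) * (X j : ℝ) = ((d * (X j).num : ℤ) : ℝ) := by
          have := congrArg (fun z : ℚ => (z : ℝ)) h2
          push_cast at this ⊢
          exact this
        rw [h5]
        exact intCast_mem B _
      have hNe : Real.exp 1 * (N * g) ∈ B := by
        have : Real.exp 1 * (N * g) = (N : ℝ) * (Real.exp 1 * g) := by ring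
        rw [this]
        exact B.mul_mem (natCast_mem B N) heg
      rcases hj : a j with (_ | _) | x
      · show 2 * Real.exp 1 * (N * g) ∈ B
        rw [mul_assoc]
        exact B.mul_mem (by exact_mod_cast natCast_mem B 2) hNe
      · show (0 : ℝ) * (N * g) ∈ B
        rw [zero_mul]; exact B.zero_mem
      · show (Real.exp 1 + (x : ℚ) * (2 - EA (1 / 2) 1 (x : ℚ)) ^ 2) * (N * g) ∈ B
        have hXx : X j = (x : ℚ) := by
          show Sum.elim (fun _ => (1 : ℚ)) (fun x : {x : ℚ // 0 < x} => x.1) (a j) = _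
          rw [hj]; rfl
        rw [hXx] at h1 hNX
        have h2 : (2 : ℝ) ∈ B := by exact_mod_cast natCast_mem B 2
        have e1 : (Real.exp 1 + (x : ℚ) * (2 - EA (1 / 2) 1 (x : ℚ)) ^ 2) * (N * g) =
            Real.exp 1 * (N * g) + (N * ((x : ℚ) : ℝ)) * ((2 - EA (1 / 2) 1 (x : ℚ)) ^ 2 * g) := by ring
        rw [e1]
        exact B.add_mem hNe (B.mul_mem hNX (B.mul_mem (B.pow_mem (B.sub_mem h2 h1) 2) hg))) D
  obtain ⟨κ, C, hC, hm⟩ := h
  refine ⟨κ, C, hC, fun P Q hP hQ hPD hQD H hH hPH hQH => ?_⟩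
  have h1 := hm P Q hP hQ hPD hQD H hH hPH hQH
  simp only [← numP_eq] at h1
  exact h1

end Pool.Agent.Helper116_EM
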