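import Pool.Agent.Helper116_EM.Meas
import Pool.Agent.R352.T.Count2
import Pool.Agent.R473.JC.Final

/-!
# Transcendence measures for polynomials in the values of a tower of E-functions (helper116)
-/

set_option autoImplicit false
set_option linter.unusedSectionVars false

open PowerSeries Finset.HasAntidiagonal

namespace Pool.Agent.Helper116_EM

open Pool.Agent.Y113
open Pool.Agent.R352.E (EF EF.mul EF.one EF.pow EF.prod EF.cv EF.common wS ES EF_wS TQ_eq deriv_wS wS_ne mon mon_eq mon_add mon_single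
  Sp ps_add ps_mul ps_C ps_X ps_zero ps_one Sp.add Sp.zero Sp.mul Sp.mem Sp.sum E_lin ESys TQ lcm_bound ev_wS cf
  Sg prT mT lt_w_iff ES_zero coeff_wS_pow)
open Pool.Agent.R352.T

section

variable {σ : Type} [Fintype σ] [LinearOrder σ] {t : Tv σ} {q : ℕ} {f : σ → ℚ⟦X⟧}

theorem val_meas (R : Real' t q f) {M J₀ : ℕ} (hM : ∀ v, v < t.w → t.m v ≤ M) (hM1 : 1 ≤ M) [Fintype (Idx t M J₀)] :
    ∃ (κ : ℕ) (c : ℝ), 0 < c ∧ ∀ (a : Idx t M J₀ → ℤ), a ≠ 0 → ∀ A : ℝ, 1 ≤ A → (∀ s, |(a s : ℝ)| ≤ A) →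
      c ≤ A ^ κ * |∑ s, (a s : ℝ) * ev 1 (mon f s.1)| := by
  classical
  set N := Fintype.card (Idx t M J₀) with hN
  let e : Fin N ≃ Idx t M J₀ := (Fintype.equivFin _).symm
  set y : Fin N → ℚ⟦X⟧ := fun i => mon f (e i).1 with hy
  obtain ⟨C, hC, h1, h2⟩ := EF.common (y := y) (fun i => EF_mon R (e i).2.1)
  have hSys : ESys q C y :=
    { one_le := hC
      hq := R.hq
      size := h1
      den := h2
      der := by
        have h3 := fun i => deriv_Sp R hM hM1 (e i)
        choose B hB using h3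
        refine ⟨fun i j => B i (e j), fun i => ?_⟩
        rw [hy, hB i, ← Equiv.sum_comp e] }
  have h0 : e (e.symm ⟨0, by simp⟩) = (⟨0, by simp⟩ : Idx t M J₀) := e.apply_symm_apply _
  obtain ⟨κ, c, hc, h3⟩ := E_meas hSys (e.symm ⟨0, by simp⟩) (by
    rw [hy]
    simp only [h0]
    rw [mon_eq]; simp) ((mon_LI R).comp e e.injective)
  refine ⟨κ, c, hc, fun a ha A hA hAa => ?_⟩
  have h4 := h3 (fun i => a (e i)) (fun h => ha (by
    funext s
    have := congrFun h (e.symm s)
    simpa using this)) A hA (fun i => hAa _)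
  rw [← Equiv.sum_comp e]
  exact h4

/-- the value of a polynomial with integer coefficients at the values of the functions of the tower -/
theorem poly_meas (R : Real' t q f) (D : ℕ) : ∃ (κ : ℕ) (c : ℝ), 0 < c ∧ ∀ p : MvPolynomial σ ℤ, p ≠ 0 →
    (∀ s ∈ p.support, s t.z = 0) → p.totalDegree ≤ D → ∀ A : ℝ, 1 ≤ A →
    (∀ s, |((MvPolynomial.coeff s p : ℤ) : ℝ)| ≤ A) →
    c ≤ A ^ κ * |MvPolynomial.aeval (fun i => ev 1 (f i)) p| := by
  classical
  obtain ⟨M, hM1, hM⟩ : ∃ M : ℕ, 1 ≤ M ∧ ∀ v, v < t.w → t.m v ≤ M := by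
    refine ⟨1 + ∑ v, t.m v, by omega, fun v _ => ?_⟩
    have := Finset.single_le_sum (f := fun v => t.m v) (fun _ _ => Nat.zero_le _) (Finset.mem_univ v)
    omega
  set J₀ : ℕ := D + M * D with hJ₀
  haveI : Finite (Idx t M J₀) := Idx_finite t hM1
  letI : Fintype (Idx t M J₀) := Fintype.ofFinite _
  obtain ⟨κ, c, hc, h⟩ := val_meas R hM hM1 (J₀ := J₀)
  refine ⟨κ, c, hc, fun p hp hpz hpD A hA hpA => ?_⟩
  have hmem : ∀ s ∈ p.support, s t.z = 0 ∧ s t.w + M * ∑ v ∈ t.V, s v ≤ J₀ := by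
    intro s hs
    refine ⟨hpz s hs, ?_⟩
    have h1 : ∑ i, s i ≤ D := by
      have h2 := MvPolynomial.le_totalDegree hs
      rw [Finsupp.sum_fintype _ _ (fun _ => rfl)] at h2
      exact h2.trans hpD
    have h2 : s t.w ≤ D := (Finset.single_le_sum (f := fun v => s v) (fun _ _ => Nat.zero_le _) (Finset.mem_univ _)).trans h1
    have h3 : ∑ v ∈ t.V, s v ≤ D := (Finset.sum_le_sum_of_subset (Finset.subset_univ _)).trans h1
    rw [hJ₀]
    exact add_le_add h2 (Nat.mul_le_mul_left _ h3)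
  have h1 := h (fun s => MvPolynomial.coeff s.1 p) (by
    intro h0
    apply hp
    ext s
    rw [MvPolynomial.coeff_zero]
    by_cases hs : s ∈ p.support
    · exact congrFun h0 ⟨s, hmem s hs⟩
    · exact MvPolynomial.notMem_support_iff.1 hs) A hA (fun s => hpA s.1)
  have h2 : ∑ s : Idx t M J₀, ((MvPolynomial.coeff s.1 p : ℤ) : ℝ) * ev 1 (mon f s.1) =
      MvPolynomial.aeval (fun i => ev 1 (f i)) p := by
    have h1 : ∑ s : Idx t M J₀, ((MvPolynomial.coeff s.1 p : ℤ) : ℝ) * ev 1 (mon f s.1) =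
        ∑ s ∈ (Finset.univ : Finset (Idx t M J₀)).map ⟨Subtype.val, Subtype.val_injective⟩,
          ((MvPolynomial.coeff s p : ℤ) : ℝ) * ev 1 (mon f s) := by
      rw [Finset.sum_map]; rfl
    rw [h1]
    have h2 : p.support ⊆ (Finset.univ : Finset (Idx t M J₀)).map ⟨Subtype.val, Subtype.val_injective⟩ := by
      intro s hs
      rw [Finset.mem_map]
      exact ⟨⟨s, hmem s hs⟩, Finset.mem_univ _, rfl⟩
    rw [← Finset.sum_subset h2 (fun s _ hs => by
      rw [MvPolynomial.notMem_support_iff.1 hs, Int.cast_zero, zero_mul])]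
    conv_rhs => rw [MvPolynomial.as_sum p, map_sum]
    refine Finset.sum_congr rfl fun s _ => ?_
    rw [MvPolynomial.aeval_monomial, ev_mon R, Finsupp.prod_fintype _ _ (fun i => pow_zero _)]
    rfl
  rw [h2] at h1
  exact h1

open Pool.Agent.TH456.TM in
/-- a quotient of polynomials in the values -/
theorem measT_of_quot (R : Real' t q f) (z : ℝ) (hz : Transcendental ℤ z) (F G : MvPolynomial σ ℤ)
    (hF : ∀ s ∈ F.support, s t.z = 0) (hG : ∀ s ∈ G.support, s t.z = 0)
    (hG0 : MvPolynomial.aeval (fun i => ev 1 (f i)) G ≠ 0)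
    (h : z * MvPolynomial.aeval (fun i => ev 1 (f i)) G = MvPolynomial.aeval (fun i => ev 1 (f i)) F) :
    MeasT (z : ℂ) := by
  classical
  intro D
  -- polynomials without the variable `t.z`
  have hmulz : ∀ p r : MvPolynomial σ ℤ, (∀ s ∈ p.support, s t.z = 0) → (∀ s ∈ r.support, s t.z = 0) →
      ∀ s ∈ (p * r).support, s t.z = 0 := by
    intro p r hp hr s hs
    have h1 := MvPolynomial.support_mul p r hs
    rw [Finset.mem_add] at h1
    obtain ⟨s1, hs1, s2, hs2, rfl⟩ := h1
    rw [Finsupp.add_apply, hp s1 hs1, hr s2 hs2]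
  have hpowz : ∀ (p : MvPolynomial σ ℤ), (∀ s ∈ p.support, s t.z = 0) → ∀ k : ℕ,
      ∀ s ∈ (p ^ k).support, s t.z = 0 := by
    intro p hp k
    induction k with
    | zero =>
      intro s hs
      rw [pow_zero] at hs
      have h1 : s = 0 := by
        by_contra h0
        rw [MvPolynomial.mem_support_iff, MvPolynomial.coeff_one, if_neg (Ne.symm h0)] at hs
        exact hs rfl
      rw [h1]; rfl
    | succ k ih =>
      rw [pow_succ]
      exact hmulz _ _ ih hp
  set E : ℕ → MvPolynomial σ ℤ := fun j => F ^ j * G ^ (D - j) with hE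
  set d : ℕ := D * (F.totalDegree + G.totalDegree) with hd
  obtain ⟨κ, c, hc, hm⟩ := poly_meas R d
  set B : ℝ := 1 + ∑ j ∈ Finset.range (D + 1), ∑ s ∈ (E j).support, |((MvPolynomial.coeff s (E j) : ℤ) : ℝ)| with hB
  have hB0 : ∀ j, 0 ≤ ∑ s ∈ (E j).support, |((MvPolynomial.coeff s (E j) : ℤ) : ℝ)| := fun j =>
    Finset.sum_nonneg fun _ _ => abs_nonneg _
  have hB1 : 1 ≤ B := by
    have := Finset.sum_nonneg fun j (_ : j ∈ Finset.range (D + 1)) => hB0 j
    rw [hB]; linarith
  set g : ℝ := |MvPolynomial.aeval (fun i => ev 1 (f i)) G| with hg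
  have hg0 : 0 < g := abs_pos.2 hG0
  refine ⟨κ, c / (B ^ κ * g ^ D), by positivity, by positivity, fun P hP hPD H hH hPH => ?_⟩
  set p' : MvPolynomial σ ℤ := ∑ j ∈ Finset.range (D + 1), MvPolynomial.C (P.coeff j) * E j with hp'
  have hval : MvPolynomial.aeval (fun i => ev 1 (f i)) p' =
      (MvPolynomial.aeval (fun i => ev 1 (f i)) G) ^ D * Polynomial.aeval z P := by
    rw [hp', map_sum, Polynomial.aeval_eq_sum_range' (show P.natDegree < D + 1 by omega), Finset.mul_sum]
    refine Finset.sum_congr rfl fun j hj => ?_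
    have hjD : j ≤ D := by
      have := Finset.mem_range.1 hj
      omega
    rw [hE]
    simp only [map_mul, map_pow, MvPolynomial.aeval_C]
    rw [← h, mul_pow]
    have h1 : (MvPolynomial.aeval (fun i => ev 1 (f i)) G) ^ D =
        (MvPolynomial.aeval (fun i => ev 1 (f i)) G) ^ j * (MvPolynomial.aeval (fun i => ev 1 (f i)) G) ^ (D - j) := by
      rw [← pow_add]; congr 1; omega
    rw [h1, zsmul_eq_mul]
    simp only [eq_intCast]
    ring
  have hPz : Polynomial.aeval z P ≠ 0 := fun h0 => hz ⟨P, hP, h0⟩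
  have hp'0 : p' ≠ 0 := by
    intro h0
    rw [h0, map_zero] at hval
    exact mul_ne_zero (pow_ne_zero _ hG0) hPz hval.symm
  have hp'z : ∀ s ∈ p'.support, s t.z = 0 := by
    intro s hs
    have h1 := MvPolynomial.mem_support_iff.1 hs
    rw [hp', MvPolynomial.coeff_sum] at h1
    obtain ⟨j, _, hj⟩ := Finset.exists_ne_zero_of_sum_ne_zero h1
    rw [MvPolynomial.coeff_C_mul] at hj
    have h2 : s ∈ (E j).support := MvPolynomial.mem_support_iff.2 (right_ne_zero_of_mul hj)
    exact hmulz _ _ (hpowz F hF j) (hpowz G hG (D - j)) s h2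
  have hp'd : p'.totalDegree ≤ d := by
    rw [hp']
    refine MvPolynomial.totalDegree_finsetSum_le fun j hj => ?_
    have hjD : j ≤ D := by
      have := Finset.mem_range.1 hj
      omega
    refine (MvPolynomial.totalDegree_mul _ _).trans ?_
    rw [MvPolynomial.totalDegree_C, zero_add]
    refine (MvPolynomial.totalDegree_mul _ _).trans ?_
    have h1 := MvPolynomial.totalDegree_pow F j
    have h2 := MvPolynomial.totalDegree_pow G (D - j)
    have h3 : j * F.totalDegree ≤ D * F.totalDegree := Nat.mul_le_mul_right _ hjD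
    have h4 : (D - j) * G.totalDegree ≤ D * G.totalDegree := Nat.mul_le_mul_right _ (Nat.sub_le _ _)
    rw [hd, mul_add]
    omega
  have hA : (1 : ℝ) ≤ H * B := one_le_mul_of_one_le_of_one_le hH hB1
  have hcoef : ∀ s, |((MvPolynomial.coeff s p' : ℤ) : ℝ)| ≤ H * B := by
    intro s
    rw [hp', MvPolynomial.coeff_sum]
    push_cast
    refine (Finset.abs_sum_le_sum_abs _ _).trans ?_
    have h1 : ∀ j ∈ Finset.range (D + 1), |((MvPolynomial.coeff s (MvPolynomial.C (P.coeff j) * E j) : ℤ) : ℝ)| ≤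
        H * ∑ s ∈ (E j).support, |((MvPolynomial.coeff s (E j) : ℤ) : ℝ)| := by
      intro j _
      rw [MvPolynomial.coeff_C_mul]
      push_cast
      rw [abs_mul]
      refine mul_le_mul (hPH j) ?_ (abs_nonneg _) (by linarith)
      by_cases hs : s ∈ (E j).support
      · exact Finset.single_le_sum (f := fun s => |((MvPolynomial.coeff s (E j) : ℤ) : ℝ)|) (fun _ _ => abs_nonneg _) hs
      · rw [MvPolynomial.notMem_support_iff.1 hs, Int.cast_zero, abs_zero]
        exact hB0 j
    refine (Finset.sum_le_sum h1).trans ?_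
    rw [← Finset.mul_sum, hB]
    nlinarith
  have h2 := hm p' hp'0 hp'z hp'd (H * B) hA hcoef
  rw [hval, abs_mul, abs_pow, ← hg] at h2
  have h3 : ‖Polynomial.aeval (z : ℂ) P‖ = |Polynomial.aeval z P| := by
    have h4 : Polynomial.aeval (z : ℂ) P = ((Polynomial.aeval z P : ℝ) : ℂ) := by
      rw [Polynomial.aeval_def, Polynomial.aeval_def, show ((Polynomial.eval₂ (algebraMap ℤ ℝ) z P : ℝ) : ℂ) =
        Complex.ofRealHom (Polynomial.eval₂ (algebraMap ℤ ℝ) z P) from rfl, Polynomial.hom_eval₂]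
      congr 1
    rw [h4, Complex.norm_real, Real.norm_eq_abs]
  rw [h3, div_le_iff₀ (by positivity), Real.rpow_natCast]
  calc c ≤ (H * B) ^ κ * (g ^ D * |Polynomial.aeval z P|) := h2
    _ = _ := by rw [mul_pow]; ring

end

end Pool.Agent.Helper116_EM
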