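import Pool.Agent.Helper116_EM.Base
import Pool.Agent.R352.Q.Three

/-!
# The numbers `ζ(k)` and the tails of their integrals (helper116)
-/

set_option autoImplicit false

open Finset

namespace Pool.Agent.Helper116_EM

open Pool.Agent.R352.T (EA)
open Pool.Agent.R352.E (EE zt)
open Pool.Agent.R352.Q (Zk Rk As Ls deriv_As const_As AI_Z)

lemma EA_zero_eq (l : ℕ) (x : ℝ) : EA 0 l x = EE l x := by
  unfold Pool.Agent.R352.T.EA Pool.Agent.R352.E.EE
  refine tsum_congr fun m => ?_
  rw [add_zero]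

lemma Ls_mem (B : Subalgebra ℤ ℝ) {x : ℝ} (hx : 0 < x) (J : ℕ) (hu : Real.exp (-x) ∈ B)
    (hE : ∀ l, 1 ≤ l → l ≤ J → EE l x ∈ B) (n : ℕ) (hn : n + 1 ≤ J) :
    (1 - Real.exp (-x)) ^ (n + 1) * PowerSeries.coeff n (Ls x) ∈ B := by
  induction n using Nat.strong_induction_on with
  | _ n ih =>
    set u : ℝ := 1 - Real.exp (-x) with hudef
    have hub : u ∈ B := B.sub_mem B.one_mem hu
    have hA : ∀ l, 1 ≤ l → l ≤ J → PowerSeries.coeff l (As x) ∈ B := by
      intro l h1 h2
      rw [As, PowerSeries.coeff_mk]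
      exact B.mul_mem (B.pow_mem (B.neg_mem B.one_mem) _) (hE l h1 h2)
    have h1 := congrArg (PowerSeries.coeff n) (deriv_As hx)
    rw [PowerSeries.coeff_derivative, PowerSeries.coeff_mul, Finset.Nat.sum_antidiagonal_eq_sum_range_succ
      (fun i j => PowerSeries.coeff i (As x) * PowerSeries.coeff j (Ls x)), Finset.sum_range_succ'] at h1
    simp only [Nat.sub_zero] at h1
    have h0 : PowerSeries.coeff 0 (As x) = u := by
      rw [PowerSeries.coeff_zero_eq_constantCoeff_apply, const_As]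
    rw [h0] at h1
    have h2 : u ^ (n + 1) * PowerSeries.coeff n (Ls x) = u ^ n * (PowerSeries.coeff (n + 1) (As x) * ((n : ℝ) + 1)) -
        ∑ k ∈ Finset.range n, u ^ k * (PowerSeries.coeff (k + 1) (As x) *
          (u ^ (n - (k + 1) + 1) * PowerSeries.coeff (n - (k + 1)) (Ls x))) := by
      rw [h1, mul_add, Finset.mul_sum]
      have h3 : ∑ k ∈ Finset.range n, u ^ k * (PowerSeries.coeff (k + 1) (As x) *
          (u ^ (n - (k + 1) + 1) * PowerSeries.coeff (n - (k + 1)) (Ls x))) =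
          ∑ k ∈ Finset.range n, u ^ n * (PowerSeries.coeff (k + 1) (As x) * PowerSeries.coeff (n - (k + 1)) (Ls x)) := by
        refine Finset.sum_congr rfl fun k hk => ?_
        have hk' := Finset.mem_range.1 hk
        have h4 : u ^ n = u ^ k * u ^ (n - (k + 1) + 1) := by
          rw [← pow_add]; congr 1; omega
        rw [h4]; ring
      rw [h3]
      ring
    rw [h2]
    refine B.sub_mem (B.mul_mem (B.pow_mem hub _) (B.mul_mem (hA _ (by omega) hn) ?_)) (B.sum_mem fun k hk => ?_)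
    · exact B.add_mem (natCast_mem B n) B.one_mem
    · have hk' := Finset.mem_range.1 hk
      exact B.mul_mem (B.pow_mem hub _) (B.mul_mem (hA _ (by omega) (by omega)) (ih _ (by omega) (by omega)))

lemma Zk_mem_ring (B : Subalgebra ℤ ℝ) {x : ℝ} (hx : 0 < x) (k : ℕ) (hk : 1 ≤ k) (hu : Real.exp (-x) ∈ B)
    (hE : ∀ l, 1 ≤ l → l ≤ k → EA 0 l x ∈ B) : Zk k x ∈ B := by
  obtain ⟨n, rfl⟩ : ∃ n, k = n + 1 := ⟨k - 1, by omega⟩
  rw [Zk, Nat.add_sub_cancel]
  refine B.mul_mem (B.pow_mem (B.neg_mem B.one_mem) _) (Ls_mem B hx (n + 1) hu (fun l h1 h2 => ?_) n le_rfl)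
  rw [← EA_zero_eq]
  exact hE l h1 h2

/-- the offsets: `ζ(k)` has the name `none` and `R_k(x)` has the name `some x` -/
noncomputable def off (k : ℕ) : Option {x : ℚ // 0 < x} → ℝ := fun z => z.elim 0 (fun x => Zk k (x : ℚ))

/-- the numbers -/
noncomputable def num (k : ℕ) : Option {x : ℚ // 0 < x} → ℝ := fun z => z.elim (zt k) (fun x => Rk k (x : ℚ))

lemma num_eq (k : ℕ) (z : Option {x : ℚ // 0 < x}) : num k z = zt k - off k z := by
  cases z with
  | none => simp [num, off]
  | some x => simp [num, off, Rk]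

lemma off_indep {k : ℕ} (hk : 2 ≤ k) : AlgebraicIndependent ℚ
    (fun z : Option {b : Option {x : ℚ // 0 < x} // b ≠ none} => z.elim (Real.exp 1) (fun b => off k b)) := by
  let f : Option {b : Option {x : ℚ // 0 < x} // b ≠ none} → Option {p : ℕ × ℚ // 2 ≤ p.1 ∧ 0 < p.2} := fun z =>
    match z with
    | none => none
    | some ⟨none, h⟩ => absurd rfl h
    | some ⟨some x, _⟩ => some ⟨(k, x.1), hk, x.2⟩
  have hf : Function.Injective f := by
    intro z z' h
    rcases z with _ | ⟨_ | x, hx⟩ <;> rcases z' with _ | ⟨_ | x', hx'⟩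
    · rfl
    · exact absurd rfl hx'
    · exact absurd h (by simp [f])
    · exact absurd rfl hx
    · exact absurd rfl hx
    · exact absurd rfl hx
    · exact absurd h (by simp [f])
    · exact absurd rfl hx'
    · simp only [f, Option.some.injEq, Subtype.mk.injEq, Prod.mk.injEq, true_and] at h
      have h2 := Subtype.ext h
      subst h2
      rfl
  have h2 := AI_Z.comp f hf
  convert h2 using 1
  funext z
  rcases z with _ | ⟨_ | x, hx⟩
  · rfl
  · exact absurd rfl hx
  · rfl

/-- **One name against several** -/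
theorem zeta_names {k : ℕ} (hk : 2 ≤ k) {m : ℕ} (a : Fin (m + 1) → Option {x : ℚ // 0 < x})
    (ha : Function.Injective a) (D : ℕ) :
    ∃ (κ : ℕ) (c : ℝ), 0 < c ∧ ∀ (P : MvPolynomial (Fin 2) ℤ) (Q : MvPolynomial (Fin (m + 1)) ℤ), P ≠ 0 → Q ≠ 0 →
      P.totalDegree ≤ D → Q.totalDegree ≤ D → ∀ H : ℝ, 1 ≤ H →
      (∀ s, |((MvPolynomial.coeff s P : ℤ) : ℝ)| ≤ H) → (∀ s, |((MvPolynomial.coeff s Q : ℤ) : ℝ)| ≤ H) →
      c ≤ H ^ κ * max |MvPolynomial.aeval ![Real.exp 1, num k (a 0)] P|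
        |MvPolynomial.aeval (Fin.cons (Real.exp 1) (fun j => num k (a j.succ)) : Fin (m + 1) → ℝ) Q| := by
  classical
  have hAI := names_indep (Real.exp 1) none (off k) rfl (off_indep hk) a ha
  set θ : Fin m → ℝ := fun j => off k (a 0) - off k (a j.succ) with hθ
  let X : Fin (m + 1) → ℚ := fun j => (a j).elim 1 (fun x => x.1)
  let S : Finset (ℚ × ℚ) := Finset.univ.image fun j => ((0 : ℚ), X j)
  have hXpos : ∀ j, 0 < X j := by
    intro j
    show 0 < (a j).elim 1 (fun x => x.1)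
    cases a j with
    | none => exact one_pos
    | some x => exact x.2
  have hS : ∀ p ∈ S, 0 ≤ p.1 ∧ p.1 < 1 ∧ 0 < p.2 := by
    intro p hp
    obtain ⟨j, _, rfl⟩ := Finset.mem_image.1 hp
    exact ⟨le_rfl, one_pos, hXpos j⟩
  have hM : MeasI (Fin.cons (Real.exp 1) θ : Fin (m + 1) → ℝ) := by
    refine meas_gen k S hS _ hAI fun B g hg heg hexp hE j => ?_
    have hoff : ∀ j, off k (a j) ∈ B := by
      intro j
      have hmem : ((0 : ℚ), X j) ∈ S := Finset.mem_image_of_mem _ (Finset.mem_univ j)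
      have h1 := hexp _ hmem
      have h2 := hE _ hmem
      have hXp : (0 : ℝ) < X j := by exact_mod_cast hXpos j
      have h3 := Zk_mem_ring B hXp k (by omega) h1 (fun l h1 h2' => by
        have h3 := h2 l h1 h2'
        simpa using h3)
      have h4 : off k (a j) = 0 ∨ off k (a j) = Zk k (X j) := by
        show (a j).elim 0 (fun x => Zk k (x : ℚ)) = 0 ∨ (a j).elim 0 (fun x => Zk k (x : ℚ)) =
          Zk k (((a j).elim 1 (fun x => x.1) : ℚ) : ℝ)
        cases a j with
        | none => exact Or.inl rfl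
        | some x => exact Or.inr rfl
      rcases h4 with h4 | h4
      · rw [h4]; exact B.zero_mem
      · rw [h4]; exact h3
    refine Fin.cases ?_ (fun i => ?_) j
    · simpa using heg
    · simp only [Fin.cons_succ, hθ]
      exact B.mul_mem (B.sub_mem (hoff 0) (hoff i.succ)) hg
  obtain ⟨κ, c, hc, h⟩ := names_e (Real.exp 1) θ hM hAI (num k (a 0)) D
  refine ⟨κ, c, hc, fun P Q hP hQ hPD hQD H hH hPH hQH => ?_⟩
  have h1 := h P Q hP hQ hPD hQD H hH hPH hQH
  have h2 : (fun j => num k (a 0) + θ j) = fun j : Fin m => num k (a j.succ) := by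
    funext j
    rw [hθ, num_eq, num_eq]
    ring
  rw [h2] at h1
  exact h1

end Pool.Agent.Helper116_EM
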