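import Mathlib
import Pool.Agent.Helper116_EM.Zeta

set_option autoImplicit false

/-!
# The names `num k` as integrals over parts of the octant
-/

namespace Pool.Agent.Helper116_EM

open Set MeasureTheory

/-- `exp (2 π i / k)` -/
noncomputable def rootZ (k : ℕ) : ℂ := Complex.exp (2 * Real.pi * Complex.I / k)

/-- the integrand -/
noncomputable def integrandZ (k : ℕ) (t : Fin k → ℝ) : ℂ :=
  (∑ j : Fin k, rootZ k ^ (j : ℕ) * (Real.log (t j) : ℂ)) ^ k * ((Real.exp (-∑ j, t j) : ℝ) : ℂ)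

/-- the region -/
def restZ (k : ℕ) (x : ℝ) : Set (Fin k → ℝ) := {t | (∀ j, 0 < t j) ∧ ∃ j, x ≤ t j}

/-- the integral -/
noncomputable def tailZ (k : ℕ) (x : ℚ) : ℂ :=
  (-1) ^ k / k.factorial * ∫ t in restZ k x, integrandZ k t

theorem restZ_eq (k : ℕ) (x : ℝ) :
    restZ k x = Pool.Agent.R352.Q.cube k (Ioi 0) \ Pool.Agent.R352.Q.cube k (Ioo 0 x) := by
  ext t
  simp only [restZ, Pool.Agent.R352.Q.cube, mem_sdiff, mem_univ_pi, Set.mem_Ioi, Set.mem_Ioo]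
  constructor
  · rintro ⟨h1, j, h2⟩
    exact ⟨h1, fun h => absurd (h j).2 (not_lt.2 h2)⟩
  · rintro ⟨h1, h2⟩
    push Not at h2
    obtain ⟨j, hj⟩ := h2
    exact ⟨h1, j, hj (h1 j)⟩

theorem tailZ_zero {k : ℕ} (hk : 2 ≤ k) : tailZ k 0 = (Pool.Agent.R352.E.zt k : ℂ) := by
  have h : restZ k ((0 : ℚ) : ℝ) = Pool.Agent.R352.Q.cube k (Ioi 0) := by
    ext t
    simp only [restZ, Pool.Agent.R352.Q.cube, mem_setOf_eq, mem_univ_pi, mem_Ioi, Rat.cast_zero]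
    exact ⟨fun h => h.1, fun h => ⟨h, ⟨0, by omega⟩, (h ⟨0, by omega⟩).le⟩⟩
  have h2 := Pool.Agent.R352.Q.NI_full hk
  rw [tailZ, h]
  exact h2

theorem tailZ_pos {k : ℕ} (hk : 2 ≤ k) {x : ℚ} (hx : 0 < x) :
    tailZ k x = (Pool.Agent.R352.Q.Rk k x : ℂ) := by
  have hx' : (0 : ℝ) < x := by exact_mod_cast hx
  have h : tailZ k x = Pool.Agent.R352.Q.NI k
      (Pool.Agent.R352.Q.cube k (Ioi 0) \ Pool.Agent.R352.Q.cube k (Ioo 0 x)) := by
    rw [tailZ, restZ_eq]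
    rfl
  rw [h, Pool.Agent.R352.Q.NI_diff, Pool.Agent.R352.Q.NI_full hk, Pool.Agent.R352.Q.NI_box hk hx',
    Pool.Agent.R352.Q.Rk]
  push_cast
  rfl

open Classical in
/-- the name of `R(x)` -/
noncomputable def nmZ (x : ℚ) : Option {x : ℚ // 0 < x} := if h : 0 < x then some ⟨x, h⟩ else none

theorem num_nmZ {k : ℕ} (hk : 2 ≤ k) {x : ℚ} (hx : 0 ≤ x) : ((num k (nmZ x) : ℝ) : ℂ) = tailZ k x := by
  unfold nmZ
  split_ifs with h
  · rw [tailZ_pos hk h]; rfl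
  · have h0 : x = 0 := le_antisymm (not_lt.1 h) hx
    rw [h0, tailZ_zero hk]; rfl

theorem nmZ_inj {x y : ℚ} (hx : 0 ≤ x) (hy : 0 ≤ y) (h : nmZ x = nmZ y) : x = y := by
  unfold nmZ at h
  split_ifs at h with h1 h2
  · simpa using h
  · exact le_antisymm ((not_lt.1 h1).trans hy) ((by assumption : ¬ 0 < y) |> not_lt.1 |>.trans hx)

/-- nonzero, total degree at most `D`, coefficients at most `H` -/
def BoundedZ {n : ℕ} (D H : ℕ) (P : MvPolynomial (Fin n) ℤ) : Prop :=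
  P ≠ 0 ∧ P.totalDegree ≤ D ∧ ∀ s, |MvPolynomial.coeff s P| ≤ (H : ℤ)

lemma BoundedZ.one_le {n D H : ℕ} {P : MvPolynomial (Fin n) ℤ} (hP : BoundedZ D H P) : 1 ≤ H := by
  by_contra h0
  have hH0 : H = 0 := by omega
  apply hP.1
  ext s
  have h1 := hP.2.2 s
  rw [hH0, Nat.cast_zero] at h1
  rw [MvPolynomial.coeff_zero]
  exact abs_eq_zero.1 (le_antisymm h1 (abs_nonneg _))

theorem zeta_all {k : ℕ} (hk : 2 ≤ k) (m D : ℕ) (x : Fin (m + 1) → ℚ) (hx : Function.Injective x)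
    (hpos : ∀ j, 0 ≤ x j) :
    ∃ (κ : ℕ) (c : ℝ), 0 < c ∧
        ∀ (H : ℕ) (P : MvPolynomial (Fin 2) ℤ) (Q : MvPolynomial (Fin (m + 1)) ℤ), BoundedZ D H P → BoundedZ D H Q →
          c / (H : ℝ) ^ κ ≤ max |MvPolynomial.aeval ![Real.exp 1, (tailZ k (x 0)).re] P|
            |MvPolynomial.aeval (Fin.cons (Real.exp 1) (fun j => (tailZ k (x j.succ)).re) : Fin (m + 1) → ℝ) Q| := by
  obtain ⟨κ, c, hc, h⟩ := zeta_names hk (fun j => nmZ (x j))
    (fun i j hij => hx (nmZ_inj (hpos i) (hpos j) hij)) D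
  refine ⟨κ, c, hc, fun H P Q hP hQ => ?_⟩
  have hH : 1 ≤ H := hP.one_le
  have hH' : (1 : ℝ) ≤ H := by exact_mod_cast hH
  have h1 := h P Q hP.1 hQ.1 hP.2.1 hQ.2.1 H hH' (fun s => by exact_mod_cast hP.2.2 s)
    (fun s => by exact_mod_cast hQ.2.2 s)
  have h2 : ∀ j, num k (nmZ (x j)) = (tailZ k (x j)).re := fun j => by
    rw [← num_nmZ hk (hpos j), Complex.ofReal_re]
  simp only [h2] at h1
  rw [div_le_iff₀ (by positivity), mul_comm]
  exact h1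

end Pool.Agent.Helper116_EM
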